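import Mathlib

/-! Definitions used in the statement (besides those of SC.Defs). -/

open scoped ContDiff Manifold Topology

namespace Pool.Agent.SC

/-- `q` has isolated returns: for some neighbourhood `J` of `q` every neighbourhood `U` of `q`
contains a point `y` with an iterate `F^n y` in `U`, `n > 0`, while the intermediate iterates
`F^i y`, `0 < i < n`, are outside `J`. -/
def IsolatedReturns {X : Type} [TopologicalSpace X] (F : X → X) (q : X) : Prop :=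
  ∃ J ∈ 𝓝 q, ∀ U ∈ 𝓝 q, ∃ y ∈ U, ∃ n : ℕ, 0 < n ∧ F^[n] y ∈ U ∧
    ∀ i, 0 < i → i < n → F^[i] y ∉ J

/-- `x` is nonwandering for `f`. -/
def NonwanderingPt {X : Type} [TopologicalSpace X] (f : X → X) (x : X) : Prop :=
  ∀ U ∈ 𝓝 x, ∃ n : ℕ, 0 < n ∧ ∃ y ∈ U, f^[n] y ∈ U

/-- the map `y ↦ M y` of the torus `ℝ^n / ℤ^n`, `M` an integer matrix -/
def torMap {n : ℕ} (M : Matrix (Fin n) (Fin n) ℤ) (y : UnitAddTorus (Fin n)) :
    UnitAddTorus (Fin n) := fun i => ∑ j, M i j • y j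

/-- the projection `ℝ^n → ℝ^n / ℤ^n` -/
def torPr {n : ℕ} (x : Fin n → ℝ) : UnitAddTorus (Fin n) := fun i => (x i : UnitAddCircle)

/-- the linear map `x ↦ M x` of `ℝ^n` -/
def realMap {n : ℕ} (M : Matrix (Fin n) (Fin n) ℤ) (x : Fin n → ℝ) : Fin n → ℝ :=
  fun i => ∑ j, (M i j : ℝ) * x j

/-- The integer matrix `M` is hyperbolic, with constants `C` and `θ < 1`: it has an integer inverse
`M'` and there is a linear map `P` of `ℝ^n`, commuting with `M`, such that `M^k P` and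
`M^{-k} (1 - P)` have norm at most `C θ^k` for all `k ≥ 0` (sup norm on `ℝ^n`). -/
def HypMatrix {n : ℕ} (M : Matrix (Fin n) (Fin n) ℤ) (C θ : ℝ) : Prop :=
  0 ≤ θ ∧ θ < 1 ∧ ∃ (M' : Matrix (Fin n) (Fin n) ℤ) (P : (Fin n → ℝ) →ₗ[ℝ] (Fin n → ℝ)),
    M * M' = 1 ∧ (∀ x, P (realMap M x) = realMap M (P x)) ∧
    (∀ (k : ℕ) x, ‖(realMap M)^[k] (P x)‖ ≤ C * θ ^ k * ‖x‖) ∧
    ∀ (k : ℕ) x, ‖(realMap M')^[k] (x - P x)‖ ≤ C * θ ^ k * ‖x‖

/-- `F₀` is a fibred hyperbolic map of `B × ℝ^n/ℤ^n` over the homeomorphism `T` of `B`: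
`F₀ (b, y) = (T b, M y + φ (b, y))`, `M` hyperbolic, `φ` continuous and Lipschitz in `y` with a small
constant. -/
def FibredHyperbolic {B : Type} [TopologicalSpace B] (T : B ≃ₜ B) (n : ℕ)
    (F₀ : B × UnitAddTorus (Fin n) → B × UnitAddTorus (Fin n)) : Prop :=
  0 < n ∧ ∃ (M : Matrix (Fin n) (Fin n) ℤ) (C θ L : ℝ)
    (φ : B × UnitAddTorus (Fin n) → Fin n → ℝ), HypMatrix M C θ ∧ Continuous φ ∧ 0 ≤ L ∧
    2 * C * L < 1 - θ ∧ (∀ b y y', ‖φ (b, y) - φ (b, y')‖ ≤ L * ‖y - y'‖) ∧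
    ∀ b y, F₀ (b, y) = (T b, torMap M y + torPr (φ (b, y)))

variable {E : Type} [NormedAddCommGroup E] [NormedSpace ℝ E] {H : Type} [TopologicalSpace H]
  {W : Type} [TopologicalSpace W] [ChartedSpace H W]

/-- `ψ` is a family of symmetries of `F`, parametrised by a normed space: `ψ` is of class `C^r`,
`s ↦ ψ (s v, ·)` is a one-parameter group for every `v`, each `ψ (v, ·)` commutes with `F` and
equals `ψ (v', ·)` for some `v'` with `‖v'‖ ≤ R` (example: the action of a compact connected Lie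
group, `ψ (v, x) = exp (v) x`, `v` in the Lie algebra). -/
structure SymmetryFamily (I : ModelWithCorners ℝ E H) (r : ℕ∞) (F : W → W) {P : Type}
    [NormedAddCommGroup P] [NormedSpace ℝ P] (ψ : P × W → W) (R : ℝ) : Prop where
  smooth : ContMDiff (𝓘(ℝ, P).prod I) I r ψ
  zero : ∀ x, ψ (0, x) = x
  add : ∀ (s t : ℝ) (v : P) x, ψ ((s + t) • v, x) = ψ (s • v, ψ (t • v, x))
  comm : ∀ v x, F (ψ (v, x)) = ψ (v, F x)
  bound : ∀ v, ∃ v', ‖v'‖ ≤ R ∧ ∀ x, ψ (v, x) = ψ (v', x)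

end Pool.Agent.SC
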