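import Pool.Agent.Lib.MP_1e8d1a_an.SC.Trans2

/-! Local translations together with their inverses, smooth in all variables. -/

open scoped ContDiff Manifold Topology

namespace Pool.Agent.SC

/-- `id + g` is a diffeomorphism if the derivative of `g` has norm at most `1/4`. -/
theorem ir_inv_of_small {E : Type} [NormedAddCommGroup E] [NormedSpace ℝ E]
    [FiniteDimensional ℝ E] (g : E → E) (hg : ContDiff ℝ ∞ g)
    (hb : ∀ y, ‖fderiv ℝ g y‖ ≤ 1 / 4) :
    ∃ R : E → E, ContDiff ℝ ∞ R ∧ (∀ y, R (y + g y) = y) ∧ ∀ y, R y + g (R y) = y := by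
  have : CompleteSpace E := FiniteDimensional.complete ℝ E
  have hgd : Differentiable ℝ g := hg.differentiable (by simp)
  have hlip : LipschitzWith (1 / 4 : NNReal) g := by
    refine lipschitzWith_of_nnnorm_fderiv_le (𝕜 := ℝ) (fun y => hgd y) (fun y => ?_)
    rw [← NNReal.coe_le_coe]
    simpa using hb y
  have happ : ApproximatesLinearOn (fun y : E => y + g y)
      ((ContinuousLinearEquiv.refl ℝ E : E ≃L[ℝ] E) : E →L[ℝ] E) Set.univ (1 / 4 : NNReal) := by
    intro x _ y _
    have h := hlip.dist_le_mul x y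
    rw [dist_eq_norm, dist_eq_norm] at h
    have e : (x + g x) - (y + g y) -
        ((ContinuousLinearEquiv.refl ℝ E : E ≃L[ℝ] E) : E →L[ℝ] E) (x - y) = g x - g y := by
      simp only [ContinuousLinearEquiv.coe_refl, ContinuousLinearMap.coe_id', id_eq]
      abel
    rw [e]
    exact h
  have hsub : Subsingleton E ∨
      (1 / 4 : NNReal) < ‖((ContinuousLinearEquiv.refl ℝ E : E ≃L[ℝ] E).symm : E →L[ℝ] E)‖₊⁻¹ := by
    rcases subsingleton_or_nontrivial E with h | h
    · exact Or.inl h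
    · refine Or.inr ?_
      have h1 : ‖((ContinuousLinearEquiv.refl ℝ E : E ≃L[ℝ] E).symm : E →L[ℝ] E)‖₊ = 1 := by
        have h2 : ((ContinuousLinearEquiv.refl ℝ E : E ≃L[ℝ] E).symm : E →L[ℝ] E) =
          ContinuousLinearMap.id ℝ E := rfl
        rw [h2, ← NNReal.coe_inj]
        exact ContinuousLinearMap.norm_id
      rw [h1, inv_one, ← NNReal.coe_lt_coe]
      norm_num
  choose A hA using fun y => Trans1_equiv (fderiv ℝ g y) (hb y)
  have hder : ∀ y, HasFDerivAt (fun y : E => y + g y) (A y : E →L[ℝ] E) y := by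
    intro y
    rw [hA]
    exact (hasFDerivAt_id y).add (hgd y).hasFDerivAt
  have hsm : ContDiff ℝ ∞ (fun y : E => y + g y) := contDiff_id.add hg
  let Φ : E ≃ₜ E := happ.toHomeomorph _ hsub
  refine ⟨Φ.symm, Homeomorph.contDiff_symm Φ (f₀' := A) hder hsm, fun y => ?_, fun y => ?_⟩
  · exact Φ.symm_apply_apply y
  · exact Φ.apply_symm_apply y

/-- Bump translations of a vector space and their inverses. -/
theorem ir_bump_pair {E : Type} [NormedAddCommGroup E] [NormedSpace ℝ E]
    [FiniteDimensional ℝ E] (δ : ℝ) (hδ : 0 < δ) :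
    ∃ S R : E × E → E, ContDiff ℝ ∞ S ∧ ContDiff ℝ ∞ R ∧
      (∀ v y, R (v, S (v, y)) = y) ∧ (∀ v y, S (v, R (v, y)) = y) ∧
      (∀ y, S (0, y) = y) ∧ (∀ v y, δ ≤ ‖y‖ → S (v, y) = y) ∧
      ∃ c > 0, ∃ η > 0, ∀ v y, ‖v‖ ≤ η → ‖y‖ ≤ η → S (v, y) = y + (c : ℝ) • v := by
  let β : ContDiffBump (0 : E) := ⟨δ / 4, δ / 2, by linarith, by linarith⟩
  have hβs : ContDiff ℝ ∞ (β : E → ℝ) := β.contDiff
  let β₂ : ContDiffBump (0 : E) := ⟨1, 2, by norm_num, by norm_num⟩
  have hβ₂s : ContDiff ℝ ∞ (β₂ : E → ℝ) := β₂.contDiff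
  set h : E × E → E := fun x => β x.2 • (β₂ x.1 • x.1) with hh
  have hhs : ContDiff ℝ ∞ h :=
    (hβs.comp contDiff_snd).smul ((hβ₂s.comp contDiff_fst).smul contDiff_fst)
  have hcs : HasCompactSupport h := by
    have : ProperSpace E := FiniteDimensional.proper_real E
    have hK : IsCompact (Metric.closedBall (0 : E) 2 ×ˢ Metric.closedBall (0 : E) (δ / 2)) :=
      (isCompact_closedBall _ _).prod (isCompact_closedBall _ _)
    refine HasCompactSupport.intro hK ?_
    rintro ⟨v, y⟩ hx
    simp only [Set.mem_prod, mem_closedBall_zero_iff, not_and_or, not_le] at hx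
    simp only [hh]
    rcases hx with hx | hx
    · have : β₂ v = 0 := β₂.zero_of_le_dist (by
        rw [dist_zero_right]; exact hx.le)
      rw [this, zero_smul, smul_zero]
    · have : β y = 0 := β.zero_of_le_dist (by
        rw [dist_zero_right]; exact hx.le)
      rw [this, zero_smul]
  obtain ⟨L, hL⟩ : ∃ L, ∀ y, ‖fderiv ℝ h y‖ ≤ L :=
    (hhs.continuous_fderiv (by simp)).bounded_above_of_compact_support (hcs.fderiv ℝ)
  have hL0 : 0 ≤ L := (norm_nonneg _).trans (hL 0)
  set c : ℝ := 1 / (4 * (L + 1)) with hc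
  have hcpos : 0 < c := by positivity
  have hcL : c * L ≤ 1 / 4 := by
    rw [hc, one_div_mul_eq_div, div_le_div_iff₀ (by positivity) (by norm_num)]
    linarith
  set g : E × E → E × E := fun x => (0, c • h x) with hg
  have hgs : ContDiff ℝ ∞ g := contDiff_const.prodMk (contDiff_const.smul hhs)
  have hgb : ∀ x, ‖fderiv ℝ g x‖ ≤ 1 / 4 := by
    intro x
    have hd : HasFDerivAt h (fderiv ℝ h x) x :=
      (hhs.differentiable (by simp) x).hasFDerivAt
    have h1 : HasFDerivAt g ((0 : E × E →L[ℝ] E).prod (c • fderiv ℝ h x)) x :=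
      (hasFDerivAt_const (0 : E) x).prodMk (hd.const_smul c)
    rw [h1.fderiv]
    refine ContinuousLinearMap.opNorm_le_bound _ (by norm_num) (fun y => ?_)
    simp only [ContinuousLinearMap.prod_apply, ContinuousLinearMap.zero_apply, Prod.norm_mk,
      norm_zero, ContinuousLinearMap.smul_apply]
    rw [max_eq_right (norm_nonneg _), norm_smul, Real.norm_eq_abs, abs_of_pos hcpos]
    calc c * ‖fderiv ℝ h x y‖ ≤ c * (L * ‖y‖) := by
          gcongr
          exact ((fderiv ℝ h x).le_opNorm y).trans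
            (mul_le_mul_of_nonneg_right (hL x) (norm_nonneg y))
      _ = c * L * ‖y‖ := by ring
      _ ≤ 1 / 4 * ‖y‖ := by gcongr
  obtain ⟨R, hR, hR1, hR2⟩ := ir_inv_of_small g hgs hgb
  have hfst : ∀ x, (R x).1 = x.1 := by
    intro x
    have := congrArg Prod.fst (hR2 x)
    simpa [hg] using this
  refine ⟨fun x => x.2 + c • h x, fun x => (R x).2, contDiff_snd.add (contDiff_const.smul hhs),
    contDiff_snd.comp hR, fun v y => ?_, fun v y => ?_, fun y => ?_, fun v y hy => ?_,
    c, hcpos, min 1 (δ / 4), lt_min one_pos (by linarith), fun v y hv hy => ?_⟩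
  · have h1 := hR1 (v, y)
    have h2 : (v, y) + g (v, y) = (v, y + c • h (v, y)) := by
      simp [hg]
    rw [h2] at h1
    exact congrArg Prod.snd h1
  · have h1 := congrArg Prod.snd (hR2 (v, y))
    have h2 : R (v, y) = (v, (R (v, y)).2) := Prod.ext (hfst (v, y)) rfl
    show (R (v, y)).2 + c • h (v, (R (v, y)).2) = y
    rw [← h2]
    simpa [hg] using h1
  · simp [hh]
  · have : β y = 0 := β.zero_of_le_dist (by
      rw [dist_zero_right]
      show δ / 2 ≤ ‖y‖
      linarith)
    simp [hh, this]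
  · have h1 : β y = 1 := β.one_of_mem_closedBall (by
      rw [mem_closedBall_zero_iff]
      exact hy.trans (min_le_right _ _))
    have h2 : β₂ v = 1 := β₂.one_of_mem_closedBall (by
      rw [mem_closedBall_zero_iff]
      exact hv.trans (min_le_left _ _))
    simp [hh, h1, h2]

variable {E : Type} [NormedAddCommGroup E] [NormedSpace ℝ E] {H : Type} [TopologicalSpace H]
  {I : ModelWithCorners ℝ E H} {W : Type} [TopologicalSpace W] [ChartedSpace H W]

/-- A smooth family of diffeomorphisms `T (v, ·)`, with smooth inverses `T' (v, ·)`, such that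
`p` can be moved to every nearby point with a small parameter. -/
theorem ir_translations [FiniteDimensional ℝ E] [T2Space W] [IsManifold I ∞ W]
    [I.Boundaryless] (p : W) :
    ∃ T T' : E × W → W, ContMDiff (𝓘(ℝ, E).prod I) I ∞ T ∧
      ContMDiff (𝓘(ℝ, E).prod I) I ∞ T' ∧ (∀ v q, T' (v, T (v, q)) = q) ∧
      (∀ v q, T (v, T' (v, q)) = q) ∧ (∀ q, T (0, q) = q) ∧
      ∀ ε > 0, ∀ᶠ q in 𝓝 p, ∃ v, ‖v‖ < ε ∧ T (v, p) = q := by
  obtain ⟨δ, hδ, hball⟩ := Metric.nhds_basis_closedBall.mem_iff.1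
    (extChartAt_target_mem_nhds (I := I) p)
  obtain ⟨S, R, hS, hR, hRS, hSR, hS0, hS1, c, hc, η, hη, hSη⟩ := ir_bump_pair (E := E) δ hδ
  have hR1 : ∀ v y, δ ≤ ‖y‖ → R (v, y) = y := by
    intro v y hy
    have h1 := hRS v y
    rwa [hS1 v y hy] at h1
  have hS2 : ∀ v y, ‖y‖ < δ → ‖S (v, y)‖ < δ := by
    intro v y hy
    by_contra h
    push Not at h
    have h1 := hR1 v _ h
    rw [hRS] at h1
    rw [← h1] at h
    linarith
  have hR2 : ∀ v y, ‖y‖ < δ → ‖R (v, y)‖ < δ := by
    intro v y hy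
    by_contra h
    push Not at h
    have h1 := hS1 v _ h
    rw [hSR] at h1
    rw [← h1] at h
    linarith
  refine ⟨fun x => trans2_tr I p (fun y => S (x.1, y)) x.2,
    fun x => trans2_tr I p (fun y => R (x.1, y)) x.2,
    trans2_smooth p δ hball S hS hS1 hS2, trans2_smooth p δ hball R hR hR1 hR2,
    fun v q => trans2_inv p δ hball (fun y => S (v, y)) (fun y => R (v, y)) (hS1 v) (hS2 v)
      (hRS v) q,
    fun v q => trans2_inv p δ hball (fun y => R (v, y)) (fun y => S (v, y)) (hR1 v) (hR2 v)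
      (hSR v) q, ?_, ?_⟩
  · intro q
    show trans2_tr I p (fun y => S (0, y)) q = q
    by_cases h : q ∈ (extChartAt I p).source
    · rw [trans2_tr_of_mem p _ q h, hS0, add_sub_cancel]
      exact (extChartAt I p).left_inv h
    · exact trans2_tr_of_not_mem p _ q h
  · intro ε hε
    have h1 : ∀ᶠ q in 𝓝 p, q ∈ (extChartAt I p).source := extChartAt_source_mem_nhds p
    have h2 : ∀ᶠ q in 𝓝 p, ‖extChartAt I p q - extChartAt I p p‖ < c * min η ε := by
      have hcp : 0 < c * min η ε := mul_pos hc (lt_min hη hε)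
      have h3 : ∀ᶠ q in 𝓝 p, extChartAt I p q ∈ Metric.ball (extChartAt I p p) (c * min η ε) :=
        (continuousAt_extChartAt (I := I) p).eventually (Metric.ball_mem_nhds _ hcp)
      filter_upwards [h3] with q hq
      rwa [Metric.mem_ball, dist_eq_norm] at hq
    filter_upwards [h1, h2] with q hq1 hq2
    set v : E := c⁻¹ • (extChartAt I p q - extChartAt I p p) with hv
    have hvn : ‖v‖ < min η ε := by
      rw [hv, norm_smul, norm_inv, Real.norm_eq_abs, abs_of_pos hc, inv_mul_lt_iff₀ hc]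
      exact hq2
    refine ⟨v, hvn.trans_le (min_le_right _ _), ?_⟩
    show trans2_tr I p (fun y => S (v, y)) p = q
    rw [trans2_tr_of_mem p _ p (mem_extChartAt_source p), sub_self,
      hSη _ 0 (hvn.le.trans (min_le_left _ _)) (by rw [norm_zero]; exact hη.le), zero_add, hv,
      smul_smul, mul_inv_cancel₀ hc.ne', one_smul, add_sub_cancel]
    exact (extChartAt I p).left_inv hq1

end Pool.Agent.SC
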