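import Pool.Agent.Lib.MP_1e8d1a_an.SC.BumpA
import Pool.Agent.Lib.MP_1e8d1a_an.SC.BumpB
import Pool.Agent.Lib.MP_1e8d1a_an.IR.Pair
import Pool.Agent.Lib.MP_1e8d1a_an.IR.Defs

/-! The isolated return criterion. -/

open scoped ContDiff Manifold Topology

namespace Pool.Agent.SC

/-- transport of isolated returns by a conjugacy -/
theorem IsolatedReturns.conj {X Y : Type} [TopologicalSpace X] [TopologicalSpace Y] (F : X → X)
    (G : Y → Y) (h : X ≃ₜ Y) (hc : ∀ x, h (F x) = G (h x)) (q : X)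
    (hq : IsolatedReturns G (h q)) : IsolatedReturns F q := by
  obtain ⟨J, hJ, hU⟩ := hq
  have hit : ∀ n x, h (F^[n] x) = G^[n] (h x) := by
    intro n
    induction n with
    | zero => intro x; rfl
    | succ n ih => intro x; rw [Function.iterate_succ_apply', Function.iterate_succ_apply', hc, ih]
  refine ⟨h ⁻¹' J, h.continuous.continuousAt hJ, fun U hUq => ?_⟩
  have hU' : h.symm ⁻¹' U ∈ 𝓝 (h q) := by
    apply h.symm.continuous.continuousAt
    rwa [h.symm_apply_apply]
  obtain ⟨y, hy, n, hn, hny, hi⟩ := hU _ hU'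
  refine ⟨h.symm y, hy, n, hn, ?_, fun i h1 h2 h3 => ?_⟩
  · have h4 : F^[n] (h.symm y) = h.symm (G^[n] y) := by
      apply h.injective
      rw [hit, h.apply_symm_apply, h.apply_symm_apply]
    rw [h4]
    exact hny
  · apply hi i h1 h2
    have h4 : h (F^[i] (h.symm y)) ∈ J := h3
    rwa [hit, h.apply_symm_apply] at h4

variable {E : Type} [NormedAddCommGroup E] [NormedSpace ℝ E] {H : Type} [TopologicalSpace H]
  {I : ModelWithCorners ℝ E H} {W : Type} [TopologicalSpace W] [ChartedSpace H W]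

/-- a point with isolated returns is closable -/
theorem closable_of_isolated_self [FiniteDimensional ℝ E] [T2Space W] [CompactSpace W]
    [IsManifold I ∞ W] [I.Boundaryless] {r : ℕ∞} (F : W ≃ₘ^r⟮I, I⟯ W) (p : W)
    (h : IsolatedReturns F p) : Closable I F p := by
  obtain ⟨J, hJ, hU⟩ := h
  refine closable_of_family (P := ℝ) (fun z : ℝ × W => F z.2)
    (fun q => (F.contMDiff.comp contMDiff_snd).contMDiffAt) F (fun q => rfl) p J hJ ?_
  intro U hUp ε hε
  obtain ⟨y, hy, n, hn, hny, hi⟩ := hU U hUp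
  exact ⟨0, by simpa using hε, F, fun q => rfl, y, hy, n, hn, hny, hi⟩

/-- **Isolated return criterion.** -/
theorem closable_of_isolated [FiniteDimensional ℝ E] [T2Space W] [CompactSpace W]
    [IsManifold I ∞ W] [I.Boundaryless] {r : ℕ∞} (F : W ≃ₘ^r⟮I, I⟯ W) (p : W)
    (h : ∀ V ∈ 𝓝 p, ∃ q ∈ V, IsolatedReturns F q) : Closable I F p := by
  obtain ⟨T, T', hT, hT', h1, h2, h0, hp⟩ := ir_translations (I := I) p
  have hle : (r : WithTop ℕ∞) ≤ (∞ : WithTop ℕ∞) := by exact_mod_cast le_top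
  have hTr : ContMDiff (𝓘(ℝ, E).prod I) I r T := hT.of_le hle
  have hTr' : ContMDiff (𝓘(ℝ, E).prod I) I r T' := hT'.of_le hle
  have h0' : ∀ q, T' (0, q) = q := fun q => by
    have := h1 0 q
    rwa [h0] at this
  have hsec : ∀ v : E, ContMDiff I (𝓘(ℝ, E).prod I) r (fun q : W => (v, q)) := fun v =>
    contMDiff_const.prodMk contMDiff_id
  have hfst : ContMDiff (𝓘(ℝ, E).prod I) 𝓘(ℝ, E) r (fun x : E × W => x.1) := contMDiff_fst
  have hFT : ContMDiff (𝓘(ℝ, E).prod I) I r (fun x : E × W => F (T x)) :=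
    F.contMDiff.comp hTr
  have hΦ : ContMDiff (𝓘(ℝ, E).prod I) I r (fun x : E × W => T' (x.1, F (T x))) :=
    hTr'.comp (hfst.prodMk hFT)
  refine closable_of_limit (P := E) (fun x : E × W => T' (x.1, F (T x)))
    (fun q => hΦ.contMDiffAt) F (fun q => ?_) p ?_
  · show F q = T' (0, F (T (0, q)))
    rw [h0, h0']
  intro ε hε
  obtain ⟨q, ⟨v, hv, hvq⟩, hq⟩ := h _ (hp ε hε)
  let D : W ≃ₘ^r⟮I, I⟯ W :=
    { toFun := fun x => T (v, x)
      invFun := fun x => T' (v, x)
      left_inv := fun x => h1 v x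
      right_inv := fun x => h2 v x
      contMDiff_toFun := hTr.comp (hsec v)
      contMDiff_invFun := hTr'.comp (hsec v) }
  let G : W ≃ₘ^r⟮I, I⟯ W := (D.trans F).trans D.symm
  have hG : ∀ x, G x = T' (v, F (T (v, x))) := fun x => rfl
  refine ⟨v, hv, G, hG, closable_of_isolated_self G p ?_⟩
  refine IsolatedReturns.conj G F D.toHomeomorph (fun x => ?_) p ?_
  · show T (v, G x) = F (T (v, x))
    rw [hG, h2]
  · have h3 : D.toHomeomorph p = q := hvq
    rw [h3]
    exact hq

end Pool.Agent.SC
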