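import Pool.Agent.Lib.MP_1e8d1a_an.SC.Rec
import Pool.Agent.Lib.MP_1e8d1a_an.IR.Isolated

/-! Diffeomorphisms conjugate to a product `T × g`. -/

open scoped ContDiff Manifold Topology

namespace Pool.Agent.SC

/-- Every nonempty open set contains a point `q` with a neighbourhood `J` such that, for every
neighbourhood `U` of `q` and ALL large `N`, some orbit starts in `U`, is in `U` at the time `N`
and is outside `J` at all times strictly between. -/
def IsolatedCycles {Y : Type} [TopologicalSpace Y] (g : Y → Y) : Prop :=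
  ∀ O : Set Y, IsOpen O → O.Nonempty → ∃ q ∈ O, ∃ J ∈ 𝓝 q, ∀ U ∈ 𝓝 q, ∃ N₀ : ℕ, ∀ N ≥ N₀,
    ∃ y ∈ U, g^[N] y ∈ U ∧ ∀ i, 0 < i → i < N → g^[i] y ∉ J

theorem NonwanderingPt.large {X : Type} [TopologicalSpace X] [T2Space X] {f : X → X}
    (hf : Continuous f) {x : X} (h : NonwanderingPt f x) (N : ℕ) (U : Set X) (hU : U ∈ 𝓝 x) :
    ∃ n ≥ N, 0 < n ∧ ∃ y ∈ U, f^[n] y ∈ U := by
  by_cases hper : ∃ m, 0 < m ∧ f^[m] x = x
  · obtain ⟨m, hm, hmx⟩ := hper
    refine ⟨m * (N + 1), ?_, by positivity, x, mem_of_mem_nhds hU, ?_⟩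
    · nlinarith
    · have : Function.IsPeriodicPt f (m * (N + 1)) x :=
        Function.IsPeriodicPt.mul_const (m := m) hmx (N + 1)
      rw [this]
      exact mem_of_mem_nhds hU
  · push Not at hper
    have key : ∀ K : ℕ, ∃ V ∈ 𝓝 x, ∀ n, 0 < n → n < K → ∀ y ∈ V, f^[n] y ∉ V := by
      intro K
      induction K with
      | zero => exact ⟨Set.univ, Filter.univ_mem, fun n _ h2 => absurd h2 (Nat.not_lt_zero n)⟩
      | succ K ih =>
        obtain ⟨V, hV, hV2⟩ := ih
        rcases Nat.eq_zero_or_pos K with h0 | h0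
        · exact ⟨V, hV, fun n h1 h2 => by omega⟩
        obtain ⟨A, B, hA, hB, hxA, hxB, hd⟩ := t2_separation (hper K h0)
        have h1 : f^[K] ⁻¹' A ∈ 𝓝 x := (hf.iterate K).continuousAt (hA.mem_nhds hxA)
        refine ⟨V ∩ (f^[K] ⁻¹' A ∩ B), Filter.inter_mem hV (Filter.inter_mem h1
          (hB.mem_nhds hxB)), fun n h2 h3 y hy hy2 => ?_⟩
        rcases Nat.lt_succ_iff_lt_or_eq.1 h3 with h4 | h4
        · exact hV2 n h2 h4 y hy.1 hy2.1
        · subst h4
          exact Set.disjoint_left.1 hd hy.2.1 hy2.2.2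
    obtain ⟨V, hV, hV2⟩ := key N
    obtain ⟨n, hn, y, hy, hny⟩ := h (U ∩ V) (Filter.inter_mem hU hV)
    refine ⟨n, ?_, hn, y, hy.1, hny.1⟩
    by_contra hcon
    exact hV2 n hn (not_le.1 hcon) y hy.2 hny.2

/-- recurrent points are nonwandering -/
theorem Recurrent.nonwandering {X : Type} [TopologicalSpace X] [T1Space X] (f : X ≃ₜ X) (x : X)
    (h : Recurrent f.toEquiv x) : NonwanderingPt f x := by
  intro U hU
  obtain ⟨n, -, hn, -, y, hy, hny⟩ := returns_of_recurrent f x h 1 one_pos 0 U hU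
  exact ⟨n, hn, y, hy, hny⟩

/-- iterates of a product map -/
theorem ir_iter_prod {B Y : Type} (T : B → B) (g : Y → Y) (n : ℕ) (z : B × Y) :
    (Prod.map T g)^[n] z = (T^[n] z.1, g^[n] z.2) := by
  rw [Prod.map_iterate]
  rfl

/-- isolated returns of a product -/
theorem isolatedReturns_prod {B Y : Type} [TopologicalSpace B] [T2Space B] [TopologicalSpace Y]
    {T : B → B} (hT : Continuous T) {g : Y → Y} (hg : IsolatedCycles g) {b : B}
    (hb : NonwanderingPt T b) (O : Set Y) (hO : IsOpen O) (hne : O.Nonempty) :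
    ∃ q ∈ O, IsolatedReturns (Prod.map T g) (b, q) := by
  obtain ⟨q, hq, J, hJ, hU⟩ := hg O hO hne
  refine ⟨q, hq, Prod.snd ⁻¹' J, continuous_snd.continuousAt hJ, fun U hUq => ?_⟩
  obtain ⟨A, hA, D, hD, hAD⟩ := mem_nhds_prod_iff.1 hUq
  obtain ⟨N₀, hN₀⟩ := hU D hD
  obtain ⟨n, hn, hn0, y, hy, hny⟩ := hb.large hT N₀ A hA
  obtain ⟨z, hz, hz1, hz2⟩ := hN₀ n hn
  refine ⟨(y, z), hAD ⟨hy, hz⟩, n, hn0, ?_, fun i h1 h2 h3 => ?_⟩
  · rw [ir_iter_prod]
    exact hAD ⟨hny, hz1⟩
  · rw [ir_iter_prod] at h3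
    exact hz2 i h1 h2 h3

variable {E : Type} [NormedAddCommGroup E] [NormedSpace ℝ E] {H : Type} [TopologicalSpace H]
  {I : ModelWithCorners ℝ E H} {W : Type} [TopologicalSpace W] [ChartedSpace H W]

/-- **Closing for diffeomorphisms that are topologically conjugate to a product `T × g`**, `T`
arbitrary, `g` with isolated cycles. -/
theorem closable_of_conj [FiniteDimensional ℝ E] [T2Space W] [CompactSpace W]
    [IsManifold I ∞ W] [I.Boundaryless] {r : ℕ∞} (F : W ≃ₘ^r⟮I, I⟯ W)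
    {B Y : Type} [TopologicalSpace B] [TopologicalSpace Y] (T : B → B) (g : Y → Y)
    (hg : IsolatedCycles g) (h : W ≃ₜ B × Y) (hF : ∀ x, h (F x) = (T (h x).1, g (h x).2)) (p : W)
    (hp : Recurrent F.toEquiv p ∨ NonwanderingPt F p ∨ NonwanderingPt T (h p).1) :
    Closable I F p := by
  have hT2 : T2Space (B × Y) := h.symm.isEmbedding.t2Space
  have hB : T2Space B := (isEmbedding_prodMkLeft (h p).2).t2Space
  have hTc : Continuous T := by
    have h1 : T = fun b => (h (F (h.symm (b, (h p).2)))).1 := by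
      funext b
      rw [hF, h.apply_symm_apply]
    rw [h1]
    exact continuous_fst.comp (h.continuous.comp (F.continuous.comp
      (h.symm.continuous.comp (by fun_prop))))
  have hit : ∀ n x, h ((F : W → W)^[n] x) = (T^[n] (h x).1, g^[n] (h x).2) := by
    intro n
    induction n with
    | zero => intro x; rfl
    | succ n ih =>
      intro x
      rw [Function.iterate_succ_apply', Function.iterate_succ_apply',
        Function.iterate_succ_apply', hF, ih]
  have key : NonwanderingPt F p → NonwanderingPt T (h p).1 := by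
    intro hw U hU
    have hU' : (fun x => (h x).1) ⁻¹' U ∈ 𝓝 p :=
      (continuous_fst.comp h.continuous).continuousAt hU
    obtain ⟨n, hn, y, hy, hny⟩ := hw _ hU'
    refine ⟨n, hn, (h y).1, hy, ?_⟩
    have h1 : (h ((F : W → W)^[n] y)).1 ∈ U := hny
    rwa [hit] at h1
  have hb : NonwanderingPt T (h p).1 := by
    rcases hp with hp | hp | hp
    · exact key (Recurrent.nonwandering F.toHomeomorph p hp)
    · exact key hp
    · exact hp
  refine closable_of_isolated F p fun V hV => ?_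
  have hV' : h.symm ⁻¹' V ∈ 𝓝 (h p) := by
    apply h.symm.continuous.continuousAt
    rwa [h.symm_apply_apply]
  rw [show h p = ((h p).1, (h p).2) from rfl] at hV'
  obtain ⟨A, hA, D, hD, hAD⟩ := mem_nhds_prod_iff.1 hV'
  obtain ⟨O, hOD, hO, hpO⟩ := mem_nhds_iff.1 hD
  obtain ⟨q, hq, hiso⟩ := isolatedReturns_prod hTc hg hb O hO ⟨_, hpO⟩
  refine ⟨h.symm ((h p).1, q), hAD ⟨mem_of_mem_nhds hA, hOD hq⟩, ?_⟩
  refine IsolatedReturns.conj F (Prod.map T g) h hF _ ?_
  rw [h.apply_symm_apply]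
  exact hiso

end Pool.Agent.SC
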