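import Pool.Agent.Lib.MP_1e8d1a_an.IR.Prod

/-! Isolated returns for families. -/

open scoped ContDiff Manifold Topology

namespace Pool.Agent.SC

variable {E : Type} [NormedAddCommGroup E] [NormedSpace ℝ E] {H : Type} [TopologicalSpace H]
  {I : ModelWithCorners ℝ E H} {W : Type} [TopologicalSpace W] [ChartedSpace H W]

/-- **Isolated return criterion for families.** -/
theorem closable_of_family_near [FiniteDimensional ℝ E] [T2Space W] [CompactSpace W]
    [IsManifold I ∞ W] [I.Boundaryless] {r : ℕ∞} {P : Type} [NormedAddCommGroup P]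
    [NormedSpace ℝ P] (Φ : P × W → W)
    (hΦ : ∀ q, ContMDiffAt (𝓘(ℝ, P).prod I) I r Φ (0, q)) (F : W ≃ₘ^r⟮I, I⟯ W)
    (hF : ∀ q, F q = Φ (0, q)) (p : W)
    (h : ∀ V ∈ 𝓝 p, ∃ q ∈ V, ∃ J ∈ 𝓝 q, ∀ U ∈ 𝓝 q, ∀ ε > 0, ∃ t : P, ‖t‖ < ε ∧
      ∃ G : W ≃ₘ^r⟮I, I⟯ W, (∀ x, G x = Φ (t, x)) ∧ ∃ y ∈ U, ∃ n : ℕ, 0 < n ∧
        (G : W → W)^[n] y ∈ U ∧ ∀ i, 0 < i → i < n → (G : W → W)^[i] y ∉ J) :
    Closable I F p := by
  obtain ⟨T, T', hT, hT', h1, h2, h0, hp⟩ := ir_translations (I := I) p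
  have hle : (r : WithTop ℕ∞) ≤ (∞ : WithTop ℕ∞) := by exact_mod_cast le_top
  have hTr : ContMDiff (𝓘(ℝ, E).prod I) I r T := hT.of_le hle
  have hTr' : ContMDiff (𝓘(ℝ, E).prod I) I r T' := hT'.of_le hle
  have h0' : ∀ q, T' (0, q) = q := fun q => by
    have := h1 0 q
    rwa [h0] at this
  have hsec : ∀ v : E, ContMDiff I (𝓘(ℝ, E).prod I) r (fun q : W => (v, q)) := fun v =>
    contMDiff_const.prodMk contMDiff_id
  have hfst : ContMDiff (𝓘(ℝ, E).prod I) 𝓘(ℝ, E) r (fun x : E × W => x.1) := contMDiff_fst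
  have hFT : ContMDiff (𝓘(ℝ, E).prod I) I r (fun x : E × W => F (T x)) :=
    F.contMDiff.comp hTr
  have hΨ : ContMDiff (𝓘(ℝ, E).prod I) I r (fun x : E × W => T' (x.1, F (T x))) :=
    hTr'.comp (hfst.prodMk hFT)
  refine closable_of_limit (P := E) (fun x : E × W => T' (x.1, F (T x)))
    (fun q => hΨ.contMDiffAt) F (fun q => ?_) p ?_
  · show F q = T' (0, F (T (0, q)))
    rw [h0, h0']
  intro ε hε
  obtain ⟨q, ⟨v, hv, hvq⟩, J, hJ, hq⟩ := h _ (hp ε hε)
  let D : W ≃ₘ^r⟮I, I⟯ W :=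
    { toFun := fun x => T (v, x)
      invFun := fun x => T' (v, x)
      left_inv := fun x => h1 v x
      right_inv := fun x => h2 v x
      contMDiff_toFun := hTr.comp (hsec v)
      contMDiff_invFun := hTr'.comp (hsec v) }
  have hDD : ∀ x, D (D.symm x) = x := fun x => h2 v x
  have hDD' : ∀ x, D.symm (D x) = x := fun x => h1 v x
  have hDp : D p = q := hvq
  let F' : W ≃ₘ^r⟮I, I⟯ W := (D.trans F).trans D.symm
  refine ⟨v, hv, F', fun x => rfl, ?_⟩
  have hsnd : ContMDiff (𝓘(ℝ, P).prod I) I r (fun x : P × W => D x.2) :=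
    D.contMDiff.comp contMDiff_snd
  have hfst' : ContMDiff (𝓘(ℝ, P).prod I) 𝓘(ℝ, P) r (fun x : P × W => x.1) := contMDiff_fst
  refine closable_of_family (P := P) (fun x : P × W => D.symm (Φ (x.1, D x.2))) (fun x => ?_) F'
    (fun x => ?_) p (D ⁻¹' J) ?_ ?_
  · have h5 : ContMDiffAt (𝓘(ℝ, P).prod I) (𝓘(ℝ, P).prod I) r
        (fun x : P × W => (x.1, D x.2)) (0, x) := hfst'.contMDiffAt.prodMk hsnd.contMDiffAt
    have h6 : ContMDiffAt (𝓘(ℝ, P).prod I) I r (fun x : P × W => Φ (x.1, D x.2)) (0, x) :=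
      ContMDiffAt.comp (0, x) (hΦ (D x)) h5
    exact ContMDiffAt.comp (0, x) D.symm.contMDiff.contMDiffAt h6
  · show D.symm (F (D x)) = D.symm (Φ (0, D x))
    rw [hF]
  · apply D.continuous.continuousAt
    rw [hDp]
    exact hJ
  · intro U hU ε' hε'
    have hU' : D.symm ⁻¹' U ∈ 𝓝 q := by
      apply D.symm.continuous.continuousAt
      rw [← hDp, hDD']
      exact hU
    obtain ⟨t, ht, G, hG, y, hy, n, hn, hny, hi⟩ := hq _ hU' ε' hε'
    let G' : W ≃ₘ^r⟮I, I⟯ W := (D.trans G).trans D.symm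
    have hG' : ∀ x, G' x = D.symm (G (D x)) := fun x => rfl
    have hit : ∀ i, (G' : W → W)^[i] (D.symm y) = D.symm ((G : W → W)^[i] y) := by
      intro i
      induction i with
      | zero => rfl
      | succ i ih =>
        rw [Function.iterate_succ_apply', ih, hG', hDD, Function.iterate_succ_apply']
    refine ⟨t, ht, G', fun x => ?_, D.symm y, hy, n, hn, ?_, fun i hi1 hi2 hi3 => ?_⟩
    · rw [hG', hG]
    · rw [hit]
      exact hny
    · apply hi i hi1 hi2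
      have h7 : D ((G' : W → W)^[i] (D.symm y)) ∈ J := hi3
      rwa [hit, hDD] at h7

/-- **Closing for group extensions of products `T × g`.** -/
theorem closable_of_ext [FiniteDimensional ℝ E] [T2Space W] [CompactSpace W]
    [IsManifold I ∞ W] [I.Boundaryless] {r : ℕ∞} (F : W ≃ₘ^r⟮I, I⟯ W)
    {P : Type} [NormedAddCommGroup P] [NormedSpace ℝ P] (ψ : P × W → W) (R : ℝ)
    (hψ : SymmetryFamily I r F ψ R)
    {B Y : Type} [TopologicalSpace B] [T2Space B] [TopologicalSpace Y] (T : B → B)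
    (hT : Continuous T) (g : Y → Y) (hg : IsolatedCycles g) (π : W → B × Y) (hπc : Continuous π)
    (hπo : IsOpenMap π) (hinv : ∀ v x, π (ψ (v, x)) = π x)
    (hfib : ∀ x x', π x = π x' → ∃ v, ψ (v, x) = x')
    (hF : ∀ x, π (F x) = (T (π x).1, g (π x).2)) (p : W)
    (hp : Recurrent F.toEquiv p ∨ NonwanderingPt F p ∨ NonwanderingPt T (π p).1) :
    Closable I F p := by
  have hit : ∀ n x, π ((F : W → W)^[n] x) = (T^[n] (π x).1, g^[n] (π x).2) := by
    intro n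
    induction n with
    | zero => intro x; rfl
    | succ n ih =>
      intro x
      rw [Function.iterate_succ_apply', Function.iterate_succ_apply',
        Function.iterate_succ_apply', hF, ih]
  have key : NonwanderingPt F p → NonwanderingPt T (π p).1 := by
    intro hw U hU
    have hU' : (fun x => (π x).1) ⁻¹' U ∈ 𝓝 p := (continuous_fst.comp hπc).continuousAt hU
    obtain ⟨n, hn, y, hy, hny⟩ := hw _ hU'
    refine ⟨n, hn, (π y).1, hy, ?_⟩
    have h1 : (π ((F : W → W)^[n] y)).1 ∈ U := hny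
    rwa [hit] at h1
  have hb : NonwanderingPt T (π p).1 := by
    rcases hp with hp | hp | hp
    · exact key (Recurrent.nonwandering F.toHomeomorph p hp)
    · exact key hp
    · exact hp
  have hFsnd : ContMDiff (𝓘(ℝ, P).prod I) I r (fun x : P × W => F x.2) :=
    F.contMDiff.comp contMDiff_snd
  have hfst : ContMDiff (𝓘(ℝ, P).prod I) 𝓘(ℝ, P) r (fun x : P × W => x.1) := contMDiff_fst
  have hΦ : ContMDiff (𝓘(ℝ, P).prod I) I r (fun x : P × W => ψ (x.1, F x.2)) :=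
    hψ.smooth.comp (hfst.prodMk hFsnd)
  refine closable_of_family_near (P := P) (fun x => ψ (x.1, F x.2)) (fun q => hΦ.contMDiffAt) F
    (fun q => (hψ.zero _).symm) p fun V hV => ?_
  have hV' : π '' V ∈ 𝓝 (π p) := hπo.image_mem_nhds hV
  obtain ⟨A, hA, D, hD, hAD⟩ := mem_nhds_prod_iff.1
    (show π '' V ∈ 𝓝 ((π p).1, (π p).2) from hV')
  obtain ⟨O, hOD, hO, hpO⟩ := mem_nhds_iff.1 hD
  obtain ⟨z, hz, J, hJ, hU⟩ := hg O hO ⟨_, hpO⟩
  obtain ⟨q, hqV, hq⟩ : ((π p).1, z) ∈ π '' V := hAD ⟨mem_of_mem_nhds hA, hOD hz⟩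
  have hJ' : {x : W | (π x).2 ∈ J} ∈ 𝓝 q := by
    have h1 : ContinuousAt (fun x => (π x).2) q := (continuous_snd.comp hπc).continuousAt
    apply h1
    show J ∈ 𝓝 (π q).2
    rw [hq]
    exact hJ
  refine ⟨q, hqV, _, hJ', fun U hUq ε hε => ?_⟩
  have hU' : π '' U ∈ 𝓝 (π q) := hπo.image_mem_nhds hUq
  rw [hq] at hU'
  obtain ⟨A', hA', D', hD', hAD'⟩ := mem_nhds_prod_iff.1 hU'
  obtain ⟨N₀, hN₀⟩ := hU D' hD'
  obtain ⟨N₁, hN₁⟩ := exists_nat_gt (R / ε)
  obtain ⟨n, hn, hn0, b, hbA, hbn⟩ := hb.large hT (max N₀ N₁) A' hA'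
  obtain ⟨w, hw, hw1, hw2⟩ := hN₀ n ((le_max_left _ _).trans hn)
  obtain ⟨y, hyU, hy⟩ : (b, w) ∈ π '' U := hAD' ⟨hbA, hw⟩
  obtain ⟨y', hy'U, hy'⟩ : (T^[n] b, g^[n] w) ∈ π '' U := hAD' ⟨hbn, hw1⟩
  have h1 : π ((F : W → W)^[n] y) = π y' := by rw [hit, hy, hy']
  obtain ⟨v₀, hv₀⟩ := hfib _ _ h1
  obtain ⟨v, hvR, hv⟩ := hψ.bound v₀
  rw [hv] at hv₀
  have hn0' : (0 : ℝ) < n := by exact_mod_cast hn0
  set t : P := (1 / (n : ℝ)) • v with ht
  have htn : ‖t‖ < ε := by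
    rw [ht, norm_smul, Real.norm_eq_abs, abs_of_pos (by positivity), one_div_mul_eq_div,
      div_lt_iff₀ hn0']
    have h2 : R / ε < n := hN₁.trans_le (by exact_mod_cast (le_max_right _ _).trans hn)
    rw [div_lt_iff₀ hε] at h2
    linarith
  have hmul : ∀ (i : ℕ) x, ψ ((i : ℝ) • t, ψ (t, x)) = ψ (((i + 1 : ℕ) : ℝ) • t, x) := by
    intro i x
    have h3 := hψ.add (i : ℝ) 1 t x
    rw [one_smul] at h3
    rw [← h3]
    push_cast
    rfl
  let G₀ : W ≃ₘ^r⟮I, I⟯ W :=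
    { toFun := fun x => ψ (t, x)
      invFun := fun x => ψ ((-1 : ℝ) • t, x)
      left_inv := fun x => by
        have h3 := hψ.add (-1) 1 t x
        rw [neg_add_cancel, zero_smul, hψ.zero, one_smul] at h3
        exact h3.symm
      right_inv := fun x => by
        have h3 := hψ.add 1 (-1) t x
        rw [add_neg_cancel, zero_smul, hψ.zero, one_smul] at h3
        exact h3.symm
      contMDiff_toFun := hψ.smooth.comp (contMDiff_const.prodMk contMDiff_id)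
      contMDiff_invFun := hψ.smooth.comp (contMDiff_const.prodMk contMDiff_id) }
  let G : W ≃ₘ^r⟮I, I⟯ W := F.trans G₀
  have hG : ∀ x, G x = ψ (t, F x) := fun x => rfl
  have hGi : ∀ (i : ℕ), (G : W → W)^[i] y = ψ ((i : ℝ) • t, (F : W → W)^[i] y) := by
    intro i
    induction i with
    | zero => simp [hψ.zero]
    | succ i ih =>
      rw [Function.iterate_succ_apply', ih, hG, hψ.comm, Function.iterate_succ_apply']
      have h3 := hψ.add 1 (i : ℝ) t (F ((F : W → W)^[i] y))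
      rw [one_smul] at h3
      rw [← h3]
      congr 3
      push_cast
      ring
  refine ⟨t, htn, G, hG, y, hyU, n, hn0, ?_, fun i hi1 hi2 hi3 => ?_⟩
  · rw [hGi, ht, smul_smul, mul_one_div_cancel hn0'.ne', one_smul, hv₀]
    exact hy'U
  · rw [hGi] at hi3
    have h3 : (π (ψ ((i : ℝ) • t, (F : W → W)^[i] y))).2 ∈ J := hi3
    rw [hinv, hit, hy] at h3
    exact hw2 i hi1 hi2 h3

end Pool.Agent.SC
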