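import Pool.Agent.Lib.MP_1e8d1a_an.IR.Green

/-! Fibred perturbations of hyperbolic torus automorphisms are conjugate to the product. -/

open scoped Topology

namespace Pool.Agent.SC

variable {n : ℕ} {B : Type} [TopologicalSpace B]

/-- the integer orbit of a point -/
def zorb {X : Type} [TopologicalSpace X] (F : X ≃ₜ X) (x : X) (k : ℤ) : X :=
  (F.toEquiv ^ k : Equiv.Perm X) x

theorem zorb_zero {X : Type} [TopologicalSpace X] (F : X ≃ₜ X) (x : X) : zorb F x 0 = x := rfl

theorem zorb_succ {X : Type} [TopologicalSpace X] (F : X ≃ₜ X) (x : X) (k : ℤ) :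
    zorb F x (k + 1) = F (zorb F x k) := by
  unfold zorb
  rw [add_comm, zpow_add, zpow_one, Equiv.Perm.mul_apply]
  rfl

theorem zorb_zorb {X : Type} [TopologicalSpace X] (F : X ≃ₜ X) (x : X) (k l : ℤ) :
    zorb F (zorb F x k) l = zorb F x (l + k) := by
  unfold zorb
  rw [zpow_add, Equiv.Perm.mul_apply]

theorem zorb_continuous {X : Type} [TopologicalSpace X] (F : X ≃ₜ X) (k : ℤ) :
    Continuous (fun x => zorb F x k) := rec_cont F k

/-- a sequence satisfying the recursion is the orbit -/
theorem eq_zorb {X : Type} [TopologicalSpace X] (F : X ≃ₜ X) (o : ℤ → X)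
    (h : ∀ k, o (k + 1) = F (o k)) (k : ℤ) : o k = zorb F (o 0) k := by
  induction k using Int.induction_on with
  | zero => rfl
  | succ i ih => rw [h, ih, zorb_succ]
  | pred i ih =>
    apply F.injective
    rw [← h, ← zorb_succ]
    rw [sub_add_cancel]
    exact ih

/-- The correction. -/
noncomputable def fibU (M M' : Matrix (Fin n) (Fin n) ℤ) (P : (Fin n → ℝ) →ₗ[ℝ] (Fin n → ℝ))
    (F : (B × UnitAddTorus (Fin n)) ≃ₜ (B × UnitAddTorus (Fin n)))
    (φ : B × UnitAddTorus (Fin n) → Fin n → ℝ) (x : B × UnitAddTorus (Fin n)) : Fin n → ℝ :=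
  - green M M' P (fun k => φ (zorb F x k)) 0

variable {M M' : Matrix (Fin n) (Fin n) ℤ} {P : (Fin n → ℝ) →ₗ[ℝ] (Fin n → ℝ)} {C θ : ℝ}

theorem green_shift (ψ : ℤ → Fin n → ℝ) (k : ℤ) :
    green M M' P ψ k = green M M' P (fun i => ψ (i + k)) 0 := by
  unfold green
  congr 1
  · refine tsum_congr fun j => ?_
    congr 3
    ring
  · refine tsum_congr fun j => ?_
    have : (k : ℤ) + j = 0 + j + k := by ring
    rw [this]

/-- the correction along an orbit -/
theorem fibU_orb (F : (B × UnitAddTorus (Fin n)) ≃ₜ (B × UnitAddTorus (Fin n)))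
    (φ : B × UnitAddTorus (Fin n) → Fin n → ℝ) (x : B × UnitAddTorus (Fin n)) (k : ℤ) :
    fibU M M' P F φ (zorb F x k) = - green M M' P (fun i => φ (zorb F x i)) k := by
  unfold fibU
  rw [green_shift _ k]
  simp only [zorb_zorb]

theorem fibU_step (h : HypData M M' P C θ)
    (F : (B × UnitAddTorus (Fin n)) ≃ₜ (B × UnitAddTorus (Fin n)))
    (φ : B × UnitAddTorus (Fin n) → Fin n → ℝ) {s : ℝ} (hφ : ∀ x, ‖φ x‖ ≤ s)
    (x : B × UnitAddTorus (Fin n)) :
    fibU M M' P F φ (F x) = realMap M (fibU M M' P F φ x) - φ x := by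
  have h1 := fibU_orb (M := M) (M' := M') (P := P) F φ x (0 + 1)
  rw [zorb_succ, zorb_zero] at h1
  rw [h1, green_step h (fun k => hφ _)]
  have h2 : fibU M M' P F φ x = - green M M' P (fun i => φ (zorb F x i)) 0 := rfl
  rw [h2, zorb_zero]
  have h3 : realMap M (-green M M' P (fun i => φ (zorb F x i)) 0) =
      -realMap M (green M M' P (fun i => φ (zorb F x i)) 0) :=
    map_neg (realCLM M) _
  rw [h3]
  abel

theorem fibU_continuous (h : HypData M M' P C θ)
    (F : (B × UnitAddTorus (Fin n)) ≃ₜ (B × UnitAddTorus (Fin n)))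
    (φ : B × UnitAddTorus (Fin n) → Fin n → ℝ) (hc : Continuous φ) {s : ℝ}
    (hφ : ∀ x, ‖φ x‖ ≤ s) : Continuous (fibU M M' P F φ) := by
  unfold fibU green
  have hP : Continuous P := P.continuous_of_finiteDimensional
  have hs : Summable (fun j : ℕ => C * θ ^ j * s) :=
    ((summable_geometric_of_lt_one h.θ0 h.θ1).mul_left C).mul_right s
  by_cases hne : Nonempty (B × UnitAddTorus (Fin n))
  · obtain ⟨x₀⟩ := hne
    have hs0 : 0 ≤ s := (norm_nonneg _).trans (hφ x₀)
    refine Continuous.neg (Continuous.sub ?_ ?_)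
    · refine continuous_tsum (fun j => ?_) hs (fun j x => ?_)
      · exact ((realMap_continuous M).iterate j).comp (hP.comp (hc.comp (zorb_continuous F _)))
      · exact (h.st j _).trans (mul_le_mul_of_nonneg_left (hφ _)
          (mul_nonneg h.C0 (pow_nonneg h.θ0 j)))
    · refine continuous_tsum (fun j => ?_) hs (fun j x => ?_)
      · have h1 := hc.comp (zorb_continuous F (0 + (j : ℤ)))
        exact ((realMap_continuous M').iterate (j + 1)).comp (h1.sub (hP.comp h1))
      · refine (h.un (j + 1) _).trans ?_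
        have h1 : θ ^ (j + 1) ≤ θ ^ j := pow_le_pow_of_le_one h.θ0 h.θ1.le (Nat.le_succ j)
        have h2 := h.C0
        have h3 := hφ (zorb F x (0 + (j : ℤ)))
        have h4 := pow_nonneg h.θ0 (j + 1)
        have h5 : 0 ≤ C * θ ^ j := mul_nonneg h2 (pow_nonneg h.θ0 j)
        gcongr
  · have : IsEmpty (B × UnitAddTorus (Fin n)) := not_nonempty_iff.1 hne
    exact continuous_of_const fun x => (this.false x).elim

/-- the torus automorphism as a homeomorphism -/
def torHomeo (h : HypData M M' P C θ) : UnitAddTorus (Fin n) ≃ₜ UnitAddTorus (Fin n) where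
  toFun := torMap M
  invFun := torMap M'
  left_inv := torMap_inv (mul_eq_one_comm.1 h.inv)
  right_inv := torMap_inv h.inv
  continuous_toFun := torMap_continuous M
  continuous_invFun := torMap_continuous M'

theorem torPr_norm_le (v : Fin n → ℝ) : ‖torPr v‖ ≤ ‖v‖ := by
  rw [pi_norm_le_iff_of_nonneg (norm_nonneg v)]
  intro i
  have h1 : ‖torPr v i‖ ≤ ‖v i‖ := by
    show ‖((v i : ℝ) : UnitAddCircle)‖ ≤ ‖v i‖
    rw [UnitAddCircle.norm_eq, Real.norm_eq_abs]
    have := round_le (v i) 0
    simpa using this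
  exact h1.trans (norm_le_pi_norm v i)

theorem fib_alg (a b c : UnitAddTorus (Fin n)) : (a + b) + (c - b) = a + c := by
  abel

/-- **Fibred structural stability.** -/
theorem fib_conj (h : HypData M M' P C θ) [CompactSpace (B × UnitAddTorus (Fin n))] [T2Space B]
    (T : B ≃ₜ B) (F : (B × UnitAddTorus (Fin n)) ≃ₜ (B × UnitAddTorus (Fin n)))
    (φ : B × UnitAddTorus (Fin n) → Fin n → ℝ) (hc : Continuous φ) (L : ℝ) (hL0 : 0 ≤ L)
    (hL : 2 * C * L < 1 - θ) (hLip : ∀ b y y', ‖φ (b, y) - φ (b, y')‖ ≤ L * ‖y - y'‖)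
    (hF : ∀ b y, F (b, y) = (T b, torMap M y + torPr (φ (b, y)))) :
    ∃ K : (B × UnitAddTorus (Fin n)) ≃ₜ (B × UnitAddTorus (Fin n)),
      (∀ x, (K x).1 = x.1) ∧ ∀ x, K (F x) = (T (K x).1, torMap M (K x).2) := by
  obtain ⟨s, hs⟩ : ∃ s, ∀ x, ‖φ x‖ ≤ s := by
    obtain ⟨s, hs⟩ := (isCompact_range hc).isBounded.exists_norm_le
    exact ⟨s, fun x => hs _ ⟨x, rfl⟩⟩
  set u := fibU M M' P F φ with hu
  have hucont : Continuous u := fibU_continuous h F φ hc hs
  have hustep : ∀ x, u (F x) = realMap M (u x) - φ x := fibU_step h F φ hs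
  have h1θ : 0 < 1 - θ := by linarith [h.θ1]
  set D : ℝ := 2 * C / (1 - θ) with hD
  have hD0 : 0 ≤ D := by
    have := h.C0
    positivity
  have hDL : D * L < 1 := by
    rw [hD, div_mul_eq_mul_div, div_lt_one h1θ]
    exact hL
  have hDL0 : 0 ≤ D * L := mul_nonneg hD0 hL0
  have hub : ∀ x, ‖u x‖ ≤ D * s := by
    intro x
    rw [hu]
    unfold fibU
    rw [norm_neg]
    exact green_bound h (fun k => hs _) 0
  let Kf : B × UnitAddTorus (Fin n) → B × UnitAddTorus (Fin n) := fun x => (x.1, x.2 + torPr (u x))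
  have hKc : Continuous Kf :=
    continuous_fst.prodMk (continuous_snd.add (torPr_continuous.comp hucont))
  have hKF : ∀ x, Kf (F x) = (T (Kf x).1, torMap M (Kf x).2) := by
    rintro ⟨b, y⟩
    show ((F (b, y)).1, (F (b, y)).2 + torPr (u (F (b, y)))) =
      (T b, torMap M (y + torPr (u (b, y))))
    rw [hustep, hF, torMap_add, torMap_pr, torPr_sub]
    exact Prod.ext rfl (fib_alg _ _ _)
  -- injectivity
  have hTM : ∀ z z' : B × UnitAddTorus (Fin n), (T z.1, torMap M z.2) = (T z'.1, torMap M z'.2) →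
      z = z' := by
    intro z z' hzz
    have e1 := T.injective (congrArg Prod.fst hzz)
    have e2 : torMap M z.2 = torMap M z'.2 := congrArg Prod.snd hzz
    have e3 := torMap_inv (mul_eq_one_comm.1 h.inv)
    refine Prod.ext e1 ?_
    rw [← e3 z.2, e2, e3]
  have hKorb : ∀ x x', Kf x = Kf x' → ∀ k : ℤ, Kf (zorb F x k) = Kf (zorb F x' k) := by
    intro x x' hxx k
    induction k using Int.induction_on with
    | zero => exact hxx
    | succ i ih => rw [zorb_succ, zorb_succ, hKF, hKF, ih]
    | pred i ih =>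
      apply hTM
      rw [← hKF, ← hKF, ← zorb_succ, ← zorb_succ, sub_add_cancel]
      exact ih
  have hinj : Function.Injective Kf := by
    intro x x' hxx
    have horb := hKorb x x' hxx
    -- differences of the corrections
    set δ : ℤ → Fin n → ℝ := fun k => u (zorb F x' k) - u (zorb F x k) with hδ
    have hb : ∀ k, (zorb F x k).1 = (zorb F x' k).1 := by
      intro k
      have h1 := congrArg Prod.fst (horb k)
      exact h1
    have hy : ∀ k, (zorb F x k).2 - (zorb F x' k).2 = torPr (δ k) := by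
      intro k
      have e1 : (zorb F x k).2 + torPr (u (zorb F x k)) =
        (zorb F x' k).2 + torPr (u (zorb F x' k)) := by
        have h1 := congrArg Prod.snd (horb k)
        exact h1
      rw [hδ, torPr_sub, sub_eq_sub_iff_add_eq_add, e1, add_comm]
    have he : ∀ k, ‖φ (zorb F x k) - φ (zorb F x' k)‖ ≤ L * ‖δ k‖ := by
      intro k
      have e1 : zorb F x k = ((zorb F x' k).1, (zorb F x k).2) := Prod.ext (hb k) rfl
      rw [e1]
      refine (hLip (zorb F x' k).1 (zorb F x k).2 (zorb F x' k).2).trans ?_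
      rw [hy k]
      exact mul_le_mul_of_nonneg_left (torPr_norm_le _) hL0
    have hbound : ∀ S : ℝ, (∀ k, ‖δ k‖ ≤ S) → ∀ k, ‖δ k‖ ≤ D * L * S := by
      intro S hS k
      have e1 : δ k = green M M' P (fun i => φ (zorb F x i) - φ (zorb F x' i)) k := by
        rw [← green_sub h (s := s) (t := s) (fun i => hs _) (fun i => hs _) k]
        show u (zorb F x' k) - u (zorb F x k) = _
        rw [hu, fibU_orb, fibU_orb]
        abel
      rw [e1, mul_assoc]
      refine green_bound h (s := L * S) (fun i => ?_) k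
      exact (he i).trans (mul_le_mul_of_nonneg_left (hS i) hL0)
    have h0 : ∀ k, ‖δ k‖ ≤ 2 * (D * s) := by
      intro k
      refine (norm_sub_le _ _).trans ?_
      linarith [hub (zorb F x' k), hub (zorb F x k)]
    have hm : ∀ (m : ℕ) k, ‖δ k‖ ≤ (D * L) ^ m * (2 * (D * s)) := by
      intro m
      induction m with
      | zero => intro k; rw [pow_zero, one_mul]; exact h0 k
      | succ m ih =>
        intro k
        rw [pow_succ', mul_assoc]
        exact hbound _ ih k
    have hlim : Filter.Tendsto (fun m : ℕ => (D * L) ^ m * (2 * (D * s))) Filter.atTop (𝓝 0) := by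
      have := (tendsto_pow_atTop_nhds_zero_of_lt_one hDL0 hDL).mul_const (2 * (D * s))
      simpa using this
    have hδ0 : δ 0 = 0 := by
      rw [← norm_le_zero_iff]
      exact ge_of_tendsto hlim (Filter.Eventually.of_forall fun m => hm m 0)
    have h1 := hy 0
    rw [hδ0, torPr_zero, zorb_zero, zorb_zero, sub_eq_zero] at h1
    have h2 := hb 0
    rw [zorb_zero, zorb_zero] at h2
    exact Prod.ext h2 h1
  -- surjectivity
  have hsurj : Function.Surjective Kf := by
    rintro ⟨b, z⟩
    set bb : ℤ → B := fun k => zorb T b k with hbb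
    set zz : ℤ → UnitAddTorus (Fin n) := fun k => zorb (torHomeo h) z k with hzz
    let ψ : BoundedContinuousFunction ℤ (Fin n → ℝ) → ℤ → Fin n → ℝ :=
      fun v i => φ (bb i, zz i + torPr (v i))
    have hψ : ∀ v i, ‖ψ v i‖ ≤ s := fun v i => hs _
    let Θ : BoundedContinuousFunction ℤ (Fin n → ℝ) → BoundedContinuousFunction ℤ (Fin n → ℝ) :=
      fun v => BoundedContinuousFunction.ofNormedAddCommGroupDiscrete
        (fun k => green M M' P (ψ v) k) (D * s) (fun k => green_bound h (hψ v) k)
    set κ : NNReal := Real.toNNReal (D * L) with hκ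
    have hκr : (κ : ℝ) = D * L := Real.coe_toNNReal _ hDL0
    have hΘ : LipschitzWith κ Θ := by
      refine LipschitzWith.of_dist_le_mul fun v w => ?_
      rw [hκr]
      have hdw : 0 ≤ D * L * dist v w := mul_nonneg hDL0 dist_nonneg
      refine (BoundedContinuousFunction.dist_le hdw).2 fun k => ?_
      show dist (green M M' P (ψ v) k) (green M M' P (ψ w) k) ≤ _
      rw [dist_eq_norm, green_sub h (hψ v) (hψ w), mul_assoc]
      refine green_bound h (s := L * dist v w) (fun i => ?_) k
      refine (hLip (bb i) _ _).trans (mul_le_mul_of_nonneg_left ?_ hL0)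
      rw [add_sub_add_left_eq_sub, ← torPr_sub]
      refine (torPr_norm_le _).trans ?_
      rw [← dist_eq_norm]
      exact BoundedContinuousFunction.dist_coe_le_dist i
    have hcon : ContractingWith κ Θ := ⟨by
      rw [← NNReal.coe_lt_coe, hκr]
      exact hDL, hΘ⟩
    set v := hcon.fixedPoint Θ with hv
    have hfix : Θ v = v := hcon.fixedPoint_isFixedPt
    have hvk : ∀ k, v k = green M M' P (ψ v) k := by
      intro k
      conv_lhs => rw [← hfix]
      rfl
    set o : ℤ → B × UnitAddTorus (Fin n) := fun k => (bb k, zz k + torPr (v k)) with ho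
    have hstep : ∀ k, o (k + 1) = F (o k) := by
      intro k
      have e1 : bb (k + 1) = T (bb k) := zorb_succ T b k
      have e2 : zz (k + 1) = torMap M (zz k) := zorb_succ (torHomeo h) z k
      have e3 : v (k + 1) = realMap M (v k) + φ (bb k, zz k + torPr (v k)) := by
        rw [hvk (k + 1), green_step h (hψ v), ← hvk k]
      simp only [ho]
      rw [hF, e1, e2, e3, torMap_add, torMap_pr, torPr_add, add_assoc]
    have horb := eq_zorb F o hstep
    refine ⟨o 0, ?_⟩
    have hu0 : u (o 0) = - v 0 := by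
      rw [hvk 0]
      show -green M M' P (fun k => φ (zorb F (o 0) k)) 0 = _
      congr 2
      funext i
      rw [← horb i]
    show ((o 0).1, (o 0).2 + torPr (u (o 0))) = (b, z)
    rw [hu0]
    have e1 : bb 0 = b := rfl
    have e2 : zz 0 = z := rfl
    simp only [ho]
    rw [e1, e2, torPr_neg, add_assoc, add_neg_cancel, add_zero]
  let Ke : (B × UnitAddTorus (Fin n)) ≃ (B × UnitAddTorus (Fin n)) :=
    Equiv.ofBijective Kf ⟨hinj, hsurj⟩
  let K : (B × UnitAddTorus (Fin n)) ≃ₜ (B × UnitAddTorus (Fin n)) :=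
    Continuous.homeoOfEquivCompactToT2 (f := Ke) hKc
  exact ⟨K, fun x => rfl, hKF⟩

end Pool.Agent.SC
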