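import Pool.Agent.Lib.MP_1e8d1a_an.IR.Torus

/-! The Green operator of a hyperbolic matrix. -/

open scoped Topology

namespace Pool.Agent.SC

variable {n : ℕ}

/-- The bounded solution `v` of `v (k + 1) = M (v k) + ψ k`. -/
noncomputable def green (M M' : Matrix (Fin n) (Fin n) ℤ) (P : (Fin n → ℝ) →ₗ[ℝ] (Fin n → ℝ))
    (ψ : ℤ → Fin n → ℝ) (k : ℤ) : Fin n → ℝ :=
  (∑' j : ℕ, (realMap M)^[j] (P (ψ (k - 1 - j)))) -
    ∑' j : ℕ, (realMap M')^[j + 1] (ψ (k + j) - P (ψ (k + j)))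

/-- the realMap as a continuous linear map -/
noncomputable def realCLM (M : Matrix (Fin n) (Fin n) ℤ) : (Fin n → ℝ) →L[ℝ] (Fin n → ℝ) :=
  LinearMap.toContinuousLinearMap
    { toFun := realMap M
      map_add' := realMap_add M
      map_smul' := fun c x => by
        funext i
        simp only [realMap, Pi.smul_apply, smul_eq_mul, RingHom.id_apply, Finset.mul_sum]
        exact Finset.sum_congr rfl fun j _ => by ring }

theorem realCLM_apply (M : Matrix (Fin n) (Fin n) ℤ) (x : Fin n → ℝ) :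
    realCLM M x = realMap M x := rfl

/-- the data of a hyperbolic matrix -/
structure HypData (M M' : Matrix (Fin n) (Fin n) ℤ) (P : (Fin n → ℝ) →ₗ[ℝ] (Fin n → ℝ))
    (C θ : ℝ) : Prop where
  C0 : 0 ≤ C
  θ0 : 0 ≤ θ
  θ1 : θ < 1
  inv : M * M' = 1
  comm : ∀ x, P (realMap M x) = realMap M (P x)
  st : ∀ (k : ℕ) x, ‖(realMap M)^[k] (P x)‖ ≤ C * θ ^ k * ‖x‖
  un : ∀ (k : ℕ) x, ‖(realMap M')^[k] (x - P x)‖ ≤ C * θ ^ k * ‖x‖

theorem HypMatrix.data (hn : 0 < n) {M : Matrix (Fin n) (Fin n) ℤ} {C θ : ℝ}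
    (h : HypMatrix M C θ) : ∃ (M' : Matrix (Fin n) (Fin n) ℤ)
      (P : (Fin n → ℝ) →ₗ[ℝ] (Fin n → ℝ)), HypData M M' P C θ := by
  obtain ⟨h0, h1, M', P, h2, h3, h4, h5⟩ := h
  refine ⟨M', P, ?_, h0, h1, h2, h3, h4, h5⟩
  by_contra hcon
  push Not at hcon
  have e1 := h4 0 (fun _ => 1)
  have e2 : 0 < ‖(fun _ => 1 : Fin n → ℝ)‖ := by
    rw [norm_pos_iff]
    intro h3
    have := congrFun h3 ⟨0, hn⟩
    simp at this
  have e3 := norm_nonneg ((realMap M)^[0] (P fun _ => 1))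
  rw [pow_zero, mul_one] at e1
  nlinarith

section

variable {M M' : Matrix (Fin n) (Fin n) ℤ} {P : (Fin n → ℝ) →ₗ[ℝ] (Fin n → ℝ)} {C θ : ℝ}

theorem green_sum1 (h : HypData M M' P C θ) {ψ : ℤ → Fin n → ℝ} {s : ℝ} (hψ : ∀ k, ‖ψ k‖ ≤ s)
    (κ : ℕ → ℤ) : Summable (fun j : ℕ => (realMap M)^[j] (P (ψ (κ j)))) ∧
      ‖∑' j : ℕ, (realMap M)^[j] (P (ψ (κ j)))‖ ≤ C / (1 - θ) * s := by
  have hs : HasSum (fun j : ℕ => C * θ ^ j * s) (C / (1 - θ) * s) := by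
    have h1 := ((hasSum_geometric_of_lt_one h.θ0 h.θ1).mul_left C).mul_right s
    rwa [← div_eq_mul_inv] at h1
  have hb : ∀ j : ℕ, ‖(realMap M)^[j] (P (ψ (κ j)))‖ ≤ C * θ ^ j * s := fun j =>
    (h.st j _).trans (mul_le_mul_of_nonneg_left (hψ _) (mul_nonneg h.C0 (pow_nonneg h.θ0 j)))
  exact ⟨Summable.of_norm_bounded hs.summable hb, tsum_of_norm_bounded hs hb⟩

theorem green_sum2 (h : HypData M M' P C θ) {ψ : ℤ → Fin n → ℝ} {s : ℝ} (hψ : ∀ k, ‖ψ k‖ ≤ s)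
    (κ : ℕ → ℤ) : Summable (fun j : ℕ => (realMap M')^[j] (ψ (κ j) - P (ψ (κ j)))) ∧
      ‖∑' j : ℕ, (realMap M')^[j] (ψ (κ j) - P (ψ (κ j)))‖ ≤ C / (1 - θ) * s := by
  have hs : HasSum (fun j : ℕ => C * θ ^ j * s) (C / (1 - θ) * s) := by
    have h1 := ((hasSum_geometric_of_lt_one h.θ0 h.θ1).mul_left C).mul_right s
    rwa [← div_eq_mul_inv] at h1
  have hb : ∀ j : ℕ, ‖(realMap M')^[j] (ψ (κ j) - P (ψ (κ j)))‖ ≤ C * θ ^ j * s := fun j =>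
    (h.un j _).trans (mul_le_mul_of_nonneg_left (hψ _) (mul_nonneg h.C0 (pow_nonneg h.θ0 j)))
  exact ⟨Summable.of_norm_bounded hs.summable hb, tsum_of_norm_bounded hs hb⟩

theorem green_sum3 (h : HypData M M' P C θ) {ψ : ℤ → Fin n → ℝ} {s : ℝ} (hψ : ∀ k, ‖ψ k‖ ≤ s)
    (κ : ℕ → ℤ) : Summable (fun j : ℕ => (realMap M')^[j + 1] (ψ (κ j) - P (ψ (κ j)))) ∧
      ‖∑' j : ℕ, (realMap M')^[j + 1] (ψ (κ j) - P (ψ (κ j)))‖ ≤ C / (1 - θ) * s := by
  have hs0 : 0 ≤ s := (norm_nonneg _).trans (hψ 0)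
  have hs : HasSum (fun j : ℕ => C * θ ^ j * s) (C / (1 - θ) * s) := by
    have h1 := ((hasSum_geometric_of_lt_one h.θ0 h.θ1).mul_left C).mul_right s
    rwa [← div_eq_mul_inv] at h1
  have hb : ∀ j : ℕ, ‖(realMap M')^[j + 1] (ψ (κ j) - P (ψ (κ j)))‖ ≤ C * θ ^ j * s := fun j => by
    refine (h.un (j + 1) _).trans ?_
    have h1 : θ ^ (j + 1) ≤ θ ^ j := pow_le_pow_of_le_one h.θ0 h.θ1.le (Nat.le_succ j)
    have h2 := h.C0
    have h3 := hψ (κ j)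
    have h4 := pow_nonneg h.θ0 (j + 1)
    have h5 : 0 ≤ C * θ ^ j := mul_nonneg h2 (pow_nonneg h.θ0 j)
    gcongr
  exact ⟨Summable.of_norm_bounded hs.summable hb, tsum_of_norm_bounded hs hb⟩

theorem green_bound (h : HypData M M' P C θ) {ψ : ℤ → Fin n → ℝ} {s : ℝ} (hψ : ∀ k, ‖ψ k‖ ≤ s)
    (k : ℤ) : ‖green M M' P ψ k‖ ≤ 2 * C / (1 - θ) * s := by
  unfold green
  refine (norm_sub_le _ _).trans ?_
  have h1 := (green_sum1 h hψ (fun j : ℕ => k - 1 - j)).2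
  have h2 := (green_sum3 h hψ (fun j : ℕ => k + j)).2
  have e : 2 * C / (1 - θ) * s = C / (1 - θ) * s + C / (1 - θ) * s := by ring
  rw [e]
  exact add_le_add h1 h2

theorem green_sub (h : HypData M M' P C θ) {ψ χ : ℤ → Fin n → ℝ} {s t : ℝ} (hψ : ∀ k, ‖ψ k‖ ≤ s)
    (hχ : ∀ k, ‖χ k‖ ≤ t) (k : ℤ) :
    green M M' P ψ k - green M M' P χ k = green M M' P (fun i => ψ i - χ i) k := by
  unfold green
  have h1 := (green_sum1 h hψ (fun j : ℕ => k - 1 - j)).1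
  have h2 := (green_sum1 h hχ (fun j : ℕ => k - 1 - j)).1
  have h3 := (green_sum3 h hψ (fun j : ℕ => k + j)).1
  have h4 := (green_sum3 h hχ (fun j : ℕ => k + j)).1
  have e1 := h1.tsum_sub h2
  have e2 := h3.tsum_sub h4
  have e3 : ∀ j : ℕ, (realMap M)^[j] (P (ψ (k - 1 - j))) - (realMap M)^[j] (P (χ (k - 1 - j))) =
      (realMap M)^[j] (P (ψ (k - 1 - j) - χ (k - 1 - j))) := by
    intro j
    rw [map_sub, realMap_iter_sub]
  have e4 : ∀ j : ℕ, (realMap M')^[j + 1] (ψ (k + j) - P (ψ (k + j))) -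
      (realMap M')^[j + 1] (χ (k + j) - P (χ (k + j))) =
      (realMap M')^[j + 1] ((ψ (k + j) - χ (k + j)) - P (ψ (k + j) - χ (k + j))) := by
    intro j
    rw [map_sub, ← realMap_iter_sub]
    congr 1
    abel
  simp only [e3, e4] at e1 e2
  rw [e1, e2]
  abel

theorem green_step (h : HypData M M' P C θ) {ψ : ℤ → Fin n → ℝ} {s : ℝ} (hψ : ∀ k, ‖ψ k‖ ≤ s)
    (k : ℤ) : green M M' P ψ (k + 1) = realMap M (green M M' P ψ k) + ψ k := by
  have h1 := (green_sum1 h hψ (fun j : ℕ => k - 1 - j)).1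
  have h2 := (green_sum3 h hψ (fun j : ℕ => k + j)).1
  have h3 := (green_sum1 h hψ (fun j : ℕ => k + 1 - 1 - j)).1
  have h4 := (green_sum2 h hψ (fun j : ℕ => k + j)).1
  have hAinv : ∀ (j : ℕ) x, realMap M ((realMap M')^[j + 1] x) = (realMap M')^[j] x := by
    intro j x
    rw [Function.iterate_succ_apply', realMap_mul, h.inv, realMap_one]
  unfold green
  rw [← realCLM_apply M, map_sub, (realCLM M).map_tsum h1, (realCLM M).map_tsum h2,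
    h3.tsum_eq_zero_add]
  simp only [realCLM_apply, hAinv, ← Function.iterate_succ_apply' (realMap M)]
  rw [h4.tsum_eq_zero_add]
  have e1 : ∀ j : ℕ, k + 1 - 1 - ((j + 1 : ℕ) : ℤ) = k - 1 - j := by intro j; push_cast; ring
  have e2 : ∀ j : ℕ, k + 1 + (j : ℤ) = k + ((j + 1 : ℕ) : ℤ) := by intro j; push_cast; ring
  have e3 : k + 1 - 1 - ((0 : ℕ) : ℤ) = k := by push_cast; ring
  have e4 : k + ((0 : ℕ) : ℤ) = k := by push_cast; ring
  simp only [e1, e2, e3, e4, Function.iterate_zero, id_eq]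
  abel

end

end Pool.Agent.SC
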