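import Pool.Agent.Lib.MP_1e8d1a_an.IR.Prod

/-! Automorphisms with dense homoclinic points have isolated cycles. -/

open scoped Topology

namespace Pool.Agent.SC

/-- a sequence that converges to a point `z ≠ q` and never meets `q` stays away from `q` -/
theorem ir_away {Y : Type} [NormedAddCommGroup Y] {x : ℕ → Y} {z q : Y}
    (h : Filter.Tendsto x Filter.atTop (𝓝 z)) (hz : z ≠ q) (hx : ∀ i, 0 < i → x i ≠ q) :
    ∃ δ > 0, ∀ i, 0 < i → 2 * δ ≤ ‖x i - q‖ := by
  have h1 : Filter.Tendsto (fun i => x (i + 1)) Filter.atTop (𝓝 z) :=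
    h.comp (Filter.tendsto_add_atTop_nat 1)
  have hK : IsClosed (insert z (Set.range fun i => x (i + 1))) := (h1.isCompact_insert_range).isClosed
  have hq : q ∉ insert z (Set.range fun i => x (i + 1)) := by
    rintro (h2 | ⟨i, h2⟩)
    · exact hz h2.symm
    · exact hx (i + 1) (Nat.succ_pos i) h2
  obtain ⟨ε, hε, hball⟩ := Metric.isOpen_iff.1 hK.isOpen_compl q hq
  refine ⟨ε / 2, by positivity, fun i hi => ?_⟩
  by_contra hcon
  push Not at hcon
  have h3 : x i ∈ Metric.ball q ε := by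
    rw [Metric.mem_ball, dist_eq_norm]
    linarith
  apply hball h3
  obtain ⟨k, rfl⟩ : ∃ k, i = k + 1 := ⟨i - 1, by omega⟩
  exact Or.inr ⟨k, rfl⟩

theorem isolatedCycles_of_homoclinic {Y : Type} [NormedAddCommGroup Y] (g g' : Y → Y)
    (hadd : ∀ x y, g (x + y) = g x + g y) (hg' : ∀ x, g (g' x) = x)
    (hd : ∀ O : Set Y, IsOpen O → O.Nonempty → ∃ q ∈ O, q ≠ 0 ∧
      Filter.Tendsto (fun n => g^[n] q) Filter.atTop (𝓝 0) ∧
      Filter.Tendsto (fun n => g'^[n] q) Filter.atTop (𝓝 0)) :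
    IsolatedCycles g := by
  intro O hO hne
  obtain ⟨q, hqO, hq0, hf, hb⟩ := hd O hO hne
  have hadd' : ∀ n x y, g^[n] (x + y) = g^[n] x + g^[n] y := by
    intro n
    induction n with
    | zero => intro x y; rfl
    | succ n ih =>
      intro x y
      rw [Function.iterate_succ_apply', ih, hadd, Function.iterate_succ_apply' g n x,
        Function.iterate_succ_apply' g n y]
  have hgg : ∀ n x, g^[n] (g'^[n] x) = x := by
    intro n
    induction n with
    | zero => intro x; rfl
    | succ n ih => intro x; rw [Function.iterate_succ_apply' g', Function.iterate_succ_apply, hg', ih]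
  have hgg2 : ∀ i j x, g^[i] (g'^[i + j] x) = g'^[j] x := by
    intro i j x
    rw [Function.iterate_add_apply, hgg]
  have hnper : ∀ i, 0 < i → g^[i] q ≠ q := by
    intro i hi hcon
    have h1 : ∀ k, g^[i * k] q = q := by
      intro k
      exact Function.IsPeriodicPt.mul_const (m := i) hcon k
    have h2 : Filter.Tendsto (fun k => g^[i * k] q) Filter.atTop (𝓝 0) := by
      refine hf.comp ?_
      exact Filter.tendsto_id.const_mul_atTop' hi
    simp only [h1] at h2
    exact hq0 (tendsto_nhds_unique tendsto_const_nhds h2)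
  have hnper' : ∀ i, 0 < i → g'^[i] q ≠ q := by
    intro i hi hcon
    apply hnper i hi
    conv_lhs => rw [← hcon]
    exact hgg i q
  obtain ⟨δ₁, hδ₁, h1⟩ := ir_away hf (Ne.symm hq0) hnper
  obtain ⟨δ₂, hδ₂, h2⟩ := ir_away hb (Ne.symm hq0) hnper'
  set δ := min δ₁ δ₂ with hδ
  have hδ0 : 0 < δ := lt_min hδ₁ hδ₂
  have h3 : ∀ᶠ n in Filter.atTop, ‖g^[n] q‖ < δ ∧ ‖g'^[n] q‖ < δ := by
    have e1 := hf.norm
    have e2 := hb.norm
    rw [norm_zero] at e1 e2
    exact (e1.eventually_lt_const hδ0).and (e2.eventually_lt_const hδ0)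
  obtain ⟨K, hK⟩ := Filter.eventually_atTop.1 h3
  refine ⟨q, hqO, Metric.ball q δ, Metric.ball_mem_nhds q hδ0, fun U hU => ?_⟩
  have h4 : ∀ᶠ N in Filter.atTop, q + g'^[N] q ∈ U ∧ g^[N] q + q ∈ U := by
    have e1 : Filter.Tendsto (fun N => q + g'^[N] q) Filter.atTop (𝓝 q) := by
      have := (tendsto_const_nhds (x := q)).add hb
      rwa [add_zero] at this
    have e2 : Filter.Tendsto (fun N => g^[N] q + q) Filter.atTop (𝓝 q) := by
      have := hf.add (tendsto_const_nhds (x := q))
      rwa [zero_add] at this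
    exact (e1.eventually hU).and (e2.eventually hU)
  obtain ⟨N₁, hN₁⟩ := Filter.eventually_atTop.1 h4
  refine ⟨max N₁ (2 * K), fun N hN => ?_⟩
  have hNK : 2 * K ≤ N := (le_max_right _ _).trans hN
  obtain ⟨h5, h6⟩ := hN₁ N ((le_max_left _ _).trans hN)
  refine ⟨q + g'^[N] q, h5, ?_, fun i hi hiN hJ => ?_⟩
  · rw [hadd', hgg]
    exact h6
  · obtain ⟨j, rfl⟩ : ∃ j, N = i + j := ⟨N - i, by omega⟩
    rw [hadd', hgg2, Metric.mem_ball, dist_eq_norm] at hJ
    have e1 : g^[i] q + g'^[j] q - q = (g^[i] q - q) + g'^[j] q := by abel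
    have e2 : g^[i] q + g'^[j] q - q = (g'^[j] q - q) + g^[i] q := by abel
    rcases le_total i j with hij | hij
    · have h7 := (hK j (by omega)).2
      have h8 := h1 i hi
      have h9 : ‖g^[i] q - q‖ ≤ ‖g^[i] q + g'^[j] q - q‖ + ‖g'^[j] q‖ := by
        have : g^[i] q - q = (g^[i] q + g'^[j] q - q) - g'^[j] q := by abel
        rw [this]
        exact norm_sub_le _ _
      have h10 : δ ≤ δ₁ := min_le_left _ _
      linarith
    · have h7 := (hK i (by omega)).1
      have h8 := h2 j (by omega)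
      have h9 : ‖g'^[j] q - q‖ ≤ ‖g^[i] q + g'^[j] q - q‖ + ‖g^[i] q‖ := by
        have : g'^[j] q - q = (g^[i] q + g'^[j] q - q) - g^[i] q := by abel
        rw [this]
        exact norm_sub_le _ _
      have h10 : δ ≤ δ₂ := min_le_right _ _
      linarith

end Pool.Agent.SC
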