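import Pool.Agent.Lib.MP_1e8d1a_an.IR.Homoclinic

/-! Hyperbolic automorphisms of the torus `ℝ^n / ℤ^n` have isolated cycles. -/

open scoped Topology

namespace Pool.Agent.SC

variable {n : ℕ}

theorem torPr_add (x y : Fin n → ℝ) : torPr (x + y) = torPr x + torPr y := by
  funext i
  simp [torPr]

theorem torPr_neg (x : Fin n → ℝ) : torPr (-x) = -torPr x := by
  funext i
  simp [torPr]

theorem torPr_sub (x y : Fin n → ℝ) : torPr (x - y) = torPr x - torPr y := by
  funext i
  simp [torPr]

theorem torPr_zero : torPr (0 : Fin n → ℝ) = 0 := by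
  funext i
  simp [torPr]

theorem torPr_int (m : Fin n → ℤ) : torPr (fun i => (m i : ℝ)) = 0 := by
  funext i
  simp only [torPr, Pi.zero_apply]
  rw [AddCircle.coe_eq_zero_iff]
  exact ⟨m i, by simp⟩

theorem torPr_continuous : Continuous (torPr (n := n)) := by
  refine continuous_pi fun i => ?_
  exact (AddCircle.continuous_mk' 1).comp (continuous_apply i)

theorem torPr_surjective : Function.Surjective (torPr (n := n)) := by
  intro y
  choose x hx using fun i => QuotientAddGroup.mk_surjective (y i)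
  exact ⟨x, funext hx⟩

theorem torPr_eq_zero {x : Fin n → ℝ} (h : torPr x = 0) : ∃ m : Fin n → ℤ, x = fun i => (m i : ℝ) := by
  have h1 : ∀ i, ∃ m : ℤ, x i = m := by
    intro i
    have h2 : ((x i : ℝ) : UnitAddCircle) = 0 := congrFun h i
    rw [AddCircle.coe_eq_zero_iff] at h2
    obtain ⟨m, hm⟩ := h2
    exact ⟨m, by simpa using hm.symm⟩
  choose m hm using h1
  exact ⟨m, funext hm⟩

theorem realMap_add (M : Matrix (Fin n) (Fin n) ℤ) (x y : Fin n → ℝ) :
    realMap M (x + y) = realMap M x + realMap M y := by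
  funext i
  simp [realMap, mul_add, Finset.sum_add_distrib]

theorem realMap_sub (M : Matrix (Fin n) (Fin n) ℤ) (x y : Fin n → ℝ) :
    realMap M (x - y) = realMap M x - realMap M y := by
  funext i
  simp [realMap, mul_sub, Finset.sum_sub_distrib]

theorem realMap_continuous (M : Matrix (Fin n) (Fin n) ℤ) : Continuous (realMap M) := by
  unfold realMap
  fun_prop

theorem realMap_int (M : Matrix (Fin n) (Fin n) ℤ) (m : Fin n → ℤ) :
    realMap M (fun i => (m i : ℝ)) = fun i => ((M.mulVec m i : ℤ) : ℝ) := by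
  funext i
  simp [realMap, Matrix.mulVec, dotProduct]

theorem realMap_mul (M M' : Matrix (Fin n) (Fin n) ℤ) (x : Fin n → ℝ) :
    realMap M (realMap M' x) = realMap (M * M') x := by
  funext i
  simp only [realMap, Matrix.mul_apply, Finset.mul_sum]
  push_cast
  simp only [Finset.sum_mul]
  rw [Finset.sum_comm]
  refine Finset.sum_congr rfl fun j _ => Finset.sum_congr rfl fun k _ => ?_
  ring

theorem realMap_one (x : Fin n → ℝ) : realMap (1 : Matrix (Fin n) (Fin n) ℤ) x = x := by
  funext i
  simp [realMap, Matrix.one_apply]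

theorem torMap_pr (M : Matrix (Fin n) (Fin n) ℤ) (x : Fin n → ℝ) :
    torMap M (torPr x) = torPr (realMap M x) := by
  funext i
  have h : ∀ t : Finset (Fin n), ((∑ j ∈ t, (M i j : ℝ) * x j : ℝ) : UnitAddCircle) =
      ∑ j ∈ t, M i j • ((x j : ℝ) : UnitAddCircle) := by
    classical
    intro t
    induction t using Finset.induction_on with
    | empty => simp
    | insert a s ha ih =>
      rw [Finset.sum_insert ha, Finset.sum_insert ha, AddCircle.coe_add, ih, ← AddCircle.coe_zsmul,
        zsmul_eq_mul]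
  exact (h Finset.univ).symm

theorem torMap_add (M : Matrix (Fin n) (Fin n) ℤ) (x y : UnitAddTorus (Fin n)) :
    torMap M (x + y) = torMap M x + torMap M y := by
  funext i
  simp [torMap, Finset.sum_add_distrib]

theorem torMap_continuous (M : Matrix (Fin n) (Fin n) ℤ) : Continuous (torMap M) := by
  unfold torMap
  refine continuous_pi fun i => continuous_finsetSum _ fun j _ => ?_
  exact (continuous_apply j).zsmul _

theorem torMap_inv {M M' : Matrix (Fin n) (Fin n) ℤ} (h : M * M' = 1) (y : UnitAddTorus (Fin n)) :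
    torMap M (torMap M' y) = y := by
  obtain ⟨x, rfl⟩ := torPr_surjective y
  rw [torMap_pr, torMap_pr, realMap_mul, h, realMap_one]

theorem torMap_iter (M : Matrix (Fin n) (Fin n) ℤ) (k : ℕ) (x : Fin n → ℝ) :
    (torMap M)^[k] (torPr x) = torPr ((realMap M)^[k] x) := by
  induction k with
  | zero => rfl
  | succ k ih => rw [Function.iterate_succ_apply', ih, torMap_pr, Function.iterate_succ_apply']

theorem realMap_iter_add (M : Matrix (Fin n) (Fin n) ℤ) (k : ℕ) (x y : Fin n → ℝ) :
    (realMap M)^[k] (x + y) = (realMap M)^[k] x + (realMap M)^[k] y := by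
  induction k with
  | zero => rfl
  | succ k ih =>
    rw [Function.iterate_succ_apply', ih, realMap_add, ← Function.iterate_succ_apply' (realMap M) k x,
      ← Function.iterate_succ_apply' (realMap M) k y]

theorem realMap_iter_sub (M : Matrix (Fin n) (Fin n) ℤ) (k : ℕ) (x y : Fin n → ℝ) :
    (realMap M)^[k] (x - y) = (realMap M)^[k] x - (realMap M)^[k] y := by
  induction k with
  | zero => rfl
  | succ k ih =>
    rw [Function.iterate_succ_apply', ih, realMap_sub, ← Function.iterate_succ_apply' (realMap M) k x,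
      ← Function.iterate_succ_apply' (realMap M) k y]

theorem realMap_iter_int (M : Matrix (Fin n) (Fin n) ℤ) (k : ℕ) (m : Fin n → ℤ) :
    ∃ m' : Fin n → ℤ, (realMap M)^[k] (fun i => (m i : ℝ)) = fun i => (m' i : ℝ) := by
  induction k with
  | zero => exact ⟨m, rfl⟩
  | succ k ih =>
    obtain ⟨m', hm'⟩ := ih
    exact ⟨_, by rw [Function.iterate_succ_apply', hm', realMap_int]⟩

theorem realMap_iter_inv {M M' : Matrix (Fin n) (Fin n) ℤ} (h : M * M' = 1) (k : ℕ)
    (x : Fin n → ℝ) : (realMap M)^[k] ((realMap M')^[k] x) = x := by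
  induction k with
  | zero => rfl
  | succ k ih =>
    rw [Function.iterate_succ_apply' (realMap M'), Function.iterate_succ_apply, realMap_mul, h,
      realMap_one, ih]

/-- rounding -/
theorem ir_round (x : Fin n → ℝ) : ∃ m : Fin n → ℤ, ‖x - fun i => (m i : ℝ)‖ ≤ 1 := by
  refine ⟨fun i => ⌊x i⌋, ?_⟩
  rw [pi_norm_le_iff_of_nonneg zero_le_one]
  intro i
  simp only [Pi.sub_apply, Real.norm_eq_abs]
  have h1 := Int.floor_le (x i)
  have h2 := Int.lt_floor_add_one (x i)
  rw [abs_le]
  constructor <;> linarith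

theorem isolatedCycles_torMap (hn : 0 < n) {M : Matrix (Fin n) (Fin n) ℤ} {C θ : ℝ}
    (hM : HypMatrix M C θ) : IsolatedCycles (torMap M) := by
  obtain ⟨hθ0, hθ1, M', P, hMM, hcomm, hs, hu⟩ := hM
  have hMM' : M' * M = 1 := mul_eq_one_comm.1 hMM
  have hpow : Filter.Tendsto (fun k : ℕ => C * θ ^ k) Filter.atTop (𝓝 0) := by
    have := (tendsto_pow_atTop_nhds_zero_of_lt_one hθ0 hθ1).const_mul C
    simpa using this
  have hcommk : ∀ (k : ℕ) x, P ((realMap M)^[k] x) = (realMap M)^[k] (P x) := by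
    intro k
    induction k with
    | zero => intro x; rfl
    | succ k ih => intro x; rw [Function.iterate_succ_apply', hcomm, ih, Function.iterate_succ_apply']
  have hcomm' : ∀ x, P (realMap M' x) = realMap M' (P x) := by
    intro x
    have h1 := hcomm (realMap M' x)
    rw [realMap_mul, hMM, realMap_one] at h1
    rw [h1, realMap_mul, hMM', realMap_one]
  have hcommk' : ∀ (k : ℕ) x, P ((realMap M')^[k] x) = (realMap M')^[k] (P x) := by
    intro k
    induction k with
    | zero => intro x; rfl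
    | succ k ih => intro x; rw [Function.iterate_succ_apply', hcomm', ih, Function.iterate_succ_apply']
  -- approximation of both components by integer vectors
  have happ1 : ∀ (x : Fin n → ℝ) (ε : ℝ), 0 < ε → ∃ m : Fin n → ℤ,
      ‖(x - P x) - ((fun i => (m i : ℝ)) - P fun i => (m i : ℝ))‖ < ε := by
    intro x ε hε
    obtain ⟨k, hk⟩ := (hpow.eventually_lt_const hε).exists
    obtain ⟨m, hm⟩ := ir_round ((realMap M)^[k] x)
    obtain ⟨m', hm'⟩ := realMap_iter_int M' k m
    refine ⟨m', lt_of_le_of_lt ?_ hk⟩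
    rw [← hm']
    have hx : x = (realMap M')^[k] ((realMap M)^[k] x) := (realMap_iter_inv hMM' k x).symm
    have e : (x - P x) - ((realMap M')^[k] (fun i => (m i : ℝ)) - P ((realMap M')^[k] fun i => (m i : ℝ))) =
        (realMap M')^[k] (((realMap M)^[k] x - fun i => (m i : ℝ)) -
          P ((realMap M)^[k] x - fun i => (m i : ℝ))) := by
      rw [realMap_iter_sub, ← hcommk', realMap_iter_sub, ← hx, map_sub]
      abel
    rw [e]
    refine (hu k _).trans ?_
    have hC : 0 ≤ C * θ ^ k := by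
      by_contra hcon
      push Not at hcon
      have h1 := hu k (fun _ => 1)
      have h2 : 0 < ‖(fun _ => 1 : Fin n → ℝ)‖ := by
        rw [norm_pos_iff]
        intro h3
        have := congrFun h3 ⟨0, hn⟩
        simp at this
      have h3 := norm_nonneg ((realMap M')^[k] ((fun _ => 1) - P fun _ => 1))
      nlinarith
    calc C * θ ^ k * ‖(realMap M)^[k] x - fun i => (m i : ℝ)‖ ≤ C * θ ^ k * 1 := by gcongr
      _ = C * θ ^ k := mul_one _
  have happ2 : ∀ (x : Fin n → ℝ) (ε : ℝ), 0 < ε → ∃ m : Fin n → ℤ,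
      ‖P x - P fun i => (m i : ℝ)‖ < ε := by
    intro x ε hε
    obtain ⟨k, hk⟩ := (hpow.eventually_lt_const hε).exists
    obtain ⟨m, hm⟩ := ir_round ((realMap M')^[k] x)
    obtain ⟨m', hm'⟩ := realMap_iter_int M k m
    refine ⟨m', lt_of_le_of_lt ?_ hk⟩
    rw [← hm']
    have hx : x = (realMap M)^[k] ((realMap M')^[k] x) := (realMap_iter_inv hMM k x).symm
    have e : P x - P ((realMap M)^[k] (fun i => (m i : ℝ))) =
        (realMap M)^[k] (P ((realMap M')^[k] x - fun i => (m i : ℝ))) := by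
      rw [← hcommk, realMap_iter_sub, ← hx, map_sub]
    rw [e]
    refine (hs k _).trans ?_
    have hC : 0 ≤ C * θ ^ k := by
      by_contra hcon
      push Not at hcon
      have h1 := hs k (fun _ => 1)
      have h2 : 0 < ‖(fun _ => 1 : Fin n → ℝ)‖ := by
        rw [norm_pos_iff]
        intro h3
        have := congrFun h3 ⟨0, hn⟩
        simp at this
      have h3 := norm_nonneg ((realMap M)^[k] (P fun _ => 1))
      nlinarith
    calc C * θ ^ k * ‖(realMap M')^[k] x - fun i => (m i : ℝ)‖ ≤ C * θ ^ k * 1 := by gcongr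
      _ = C * θ ^ k := mul_one _
  refine isolatedCycles_of_homoclinic (torMap M) (torMap M') (torMap_add M) (torMap_inv hMM) ?_
  intro O hO hne
  -- a point of `O` different from `0`
  have hne' : ∃ x : Fin n → ℝ, torPr x ∈ O ∧ torPr x ≠ 0 := by
    obtain ⟨z, hz⟩ := hne
    obtain ⟨x, rfl⟩ := torPr_surjective z
    by_cases h1 : torPr x = 0
    · obtain ⟨ε, hε, hball⟩ := Metric.isOpen_iff.1 (hO.preimage torPr_continuous) x hz
      set δ : ℝ := min (ε / 2) (1 / 2) with hδ
      have hδ0 : 0 < δ := by positivity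
      have hδ1 : δ ≤ 1 / 2 := min_le_right _ _
      have hδε : δ < ε := lt_of_le_of_lt (min_le_left _ _) (by linarith)
      refine ⟨x + fun _ => δ, hball ?_, ?_⟩
      · rw [Metric.mem_ball, dist_eq_norm, add_sub_cancel_left]
        refine lt_of_le_of_lt ?_ hδε
        rw [pi_norm_le_iff_of_nonneg hδ0.le]
        intro i
        rw [Real.norm_eq_abs, abs_of_pos hδ0]
      · intro h2
        rw [torPr_add, h1, zero_add] at h2
        obtain ⟨m, hm⟩ := torPr_eq_zero h2
        have h3 : δ = m ⟨0, hn⟩ := congrFun hm ⟨0, hn⟩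
        have h4 : (0 : ℝ) < m ⟨0, hn⟩ := by rw [← h3]; exact hδ0
        have h5 : (m ⟨0, hn⟩ : ℝ) < 1 := by rw [← h3]; linarith
        have h6 : 0 < m ⟨0, hn⟩ := by exact_mod_cast h4
        have h7 : m ⟨0, hn⟩ < 1 := by exact_mod_cast h5
        omega
    · exact ⟨x, hz, h1⟩
  obtain ⟨x, hxO, hx0⟩ := hne'
  have hO' : IsOpen (torPr ⁻¹' (O ∩ {0}ᶜ)) :=
    (hO.inter isOpen_compl_singleton).preimage torPr_continuous
  obtain ⟨ε, hε, hball⟩ := Metric.isOpen_iff.1 hO' x ⟨hxO, hx0⟩
  obtain ⟨m₁, hm₁⟩ := happ1 x (ε / 2) (by positivity)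
  obtain ⟨m₂, hm₂⟩ := happ2 x (ε / 2) (by positivity)
  set v₁ : Fin n → ℝ := fun i => (m₁ i : ℝ) with hv₁
  set v₂ : Fin n → ℝ := fun i => (m₂ i : ℝ) with hv₂
  set v : Fin n → ℝ := v₁ - v₂ with hv
  have hvint : v = fun i => ((m₁ i - m₂ i : ℤ) : ℝ) := by
    funext i
    simp [hv, hv₁, hv₂]
  have hx' : (v₁ - P v₁) + P v₂ ∈ Metric.ball x ε := by
    rw [Metric.mem_ball, dist_eq_norm, ← norm_neg]
    have e : -((v₁ - P v₁) + P v₂ - x) = ((x - P x) - (v₁ - P v₁)) + (P x - P v₂) := by abel
    rw [e]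
    refine (norm_add_le _ _).trans_lt ?_
    linarith
  have hmem := hball hx'
  have hpr : torPr ((v₁ - P v₁) + P v₂) = torPr (v - P v) := by
    have e : (v₁ - P v₁) + P v₂ = (v - P v) + v₂ := by
      rw [hv, map_sub]
      abel
    rw [e, torPr_add, hv₂, torPr_int, add_zero]
  have hpr2 : torPr (v - P v) = torPr (-P v) := by
    rw [sub_eq_add_neg, torPr_add, hvint, torPr_int, zero_add]
  rw [Set.mem_preimage, hpr] at hmem
  have hlim : ∀ (x : ℕ → Fin n → ℝ) (c : ℝ), (∀ k, ‖x k‖ ≤ C * θ ^ k * c) →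
      Filter.Tendsto (fun k => torPr (x k)) Filter.atTop (𝓝 0) := by
    intro x c hx
    have h1 : Filter.Tendsto x Filter.atTop (𝓝 0) := by
      apply squeeze_zero_norm hx
      have := hpow.mul_const c
      simpa using this
    have h2 := (torPr_continuous.tendsto (0 : Fin n → ℝ)).comp h1
    rw [torPr_zero] at h2
    exact h2
  refine ⟨torPr (v - P v), hmem.1, hmem.2, ?_, ?_⟩
  · rw [hpr2]
    simp only [torMap_iter]
    refine hlim _ ‖v‖ fun k => ?_
    have h1 : -P v = P (-v) := (map_neg P v).symm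
    rw [h1, ← norm_neg v]
    exact hs k (-v)
  · simp only [torMap_iter]
    exact hlim _ ‖v‖ fun k => hu k v

end Pool.Agent.SC
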