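import Pool.Agent.Lib.MP_1e8d1a_an.SC.HypA
import Pool.Agent.Lib.MP_1e8d1a_an.IR.Torus

/-! Hyperbolic `2 × 2` matrices. -/

open scoped Topology

namespace Pool.Agent.SC

/-- `realMap` as a linear map -/
noncomputable def realCLM' {n : ℕ} (M : Matrix (Fin n) (Fin n) ℤ) : (Fin n → ℝ) →ₗ[ℝ] (Fin n → ℝ) where
  toFun := realMap M
  map_add' := realMap_add M
  map_smul' := fun c x => by
    funext i
    simp only [realMap, Pi.smul_apply, smul_eq_mul, RingHom.id_apply, Finset.mul_sum]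
    exact Finset.sum_congr rfl fun j _ => by ring

theorem hypMatrix_two (a b c d : ℤ) (hdet : a * d - b * c = 1) (htr : 2 < |a + d|) :
    ∃ C θ : ℝ, HypMatrix !![a, b; c, d] C θ := by
  obtain ⟨lam, mu, xi, eta, eu, es, p, q, hlam, hmu, hlm, hsplit, hu, hs,
    ⟨-, -, -, hxi⟩, p', q', -, -, -, heta⟩ := hyp_split a b c d hdet htr
  have hlam0 : lam ≠ 0 := by
    rintro rfl
    simp at hlm
  have hdetR : (a : ℝ) * d - b * c = 1 := by exact_mod_cast hdet
  set Eu : Fin 2 → ℝ := ![eu.1, eu.2] with hEu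
  set Es : Fin 2 → ℝ := ![es.1, es.2] with hEs
  have hM : ∀ x : Fin 2 → ℝ, realMap !![a, b; c, d] x = ![a * x 0 + b * x 1, c * x 0 + d * x 1] := by
    intro x
    funext i
    fin_cases i <;> simp [realMap, Fin.sum_univ_two]
  have hM' : ∀ x : Fin 2 → ℝ, realMap !![d, -b; -c, a] x =
      ![d * x 0 - b * x 1, -(c * x 0) + a * x 1] := by
    intro x
    funext i
    fin_cases i <;> simp [realMap, Fin.sum_univ_two] <;> ring
  have hu1 : a * eu.1 + b * eu.2 = lam * eu.1 := congrArg Prod.fst hu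
  have hu2 : c * eu.1 + d * eu.2 = lam * eu.2 := congrArg Prod.snd hu
  have hs1 : a * es.1 + b * es.2 = mu * es.1 := congrArg Prod.fst hs
  have hs2 : c * es.1 + d * es.2 = mu * es.2 := congrArg Prod.snd hs
  have hMs : realMap !![a, b; c, d] Es = mu • Es := by
    rw [hM]
    funext i
    fin_cases i
    · simpa [hEs] using hs1
    · simpa [hEs] using hs2
  have hMu : realMap !![a, b; c, d] Eu = lam • Eu := by
    rw [hM]
    funext i
    fin_cases i
    · simpa [hEu] using hu1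
    · simpa [hEu] using hu2
  have hinv : (!![a, b; c, d] : Matrix (Fin 2) (Fin 2) ℤ) * !![d, -b; -c, a] = 1 := by
    ext i j
    fin_cases i <;> fin_cases j <;> simp [Matrix.mul_apply, Fin.sum_univ_two] <;> linarith
  have hinv' := mul_eq_one_comm.1 hinv
  have hsm : ∀ (M : Matrix (Fin 2) (Fin 2) ℤ) (t : ℝ) (x : Fin 2 → ℝ),
      realMap M (t • x) = t • realMap M x := by
    intro M t x
    funext i
    simp only [realMap, Pi.smul_apply, smul_eq_mul, Finset.mul_sum]
    exact Finset.sum_congr rfl fun j _ => by ring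
  have hM'u : realMap !![d, -b; -c, a] Eu = mu • Eu := by
    have h1 : realMap !![d, -b; -c, a] (realMap !![a, b; c, d] Eu) = Eu := by
      rw [realMap_mul, hinv', realMap_one]
    rw [hMu, hsm] at h1
    have h2 : mu • (lam • realMap !![d, -b; -c, a] Eu) = realMap !![d, -b; -c, a] Eu := by
      rw [smul_smul, mul_comm, hlm, one_smul]
    rw [← h2, h1]
  set X : (Fin 2 → ℝ) → ℝ := fun x => xi (x 0, x 1) with hX
  set Y : (Fin 2 → ℝ) → ℝ := fun x => eta (x 0, x 1) with hY
  have hsp : ∀ x : Fin 2 → ℝ, X x • Eu + Y x • Es = x := by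
    intro x
    have h1 := hsplit (x 0, x 1)
    have h2 : xi (x 0, x 1) * eu.1 + eta (x 0, x 1) * es.1 = x 0 := congrArg Prod.fst h1
    have h3 : xi (x 0, x 1) * eu.2 + eta (x 0, x 1) * es.2 = x 1 := congrArg Prod.snd h1
    funext i
    fin_cases i
    · simpa [hX, hY, hEu, hEs] using h2
    · simpa [hX, hY, hEu, hEs] using h3
  have hXf : ∀ x, X x = p * x 0 + q * x 1 := fun x => hxi _
  have hYf : ∀ x, Y x = p' * x 0 + q' * x 1 := fun x => heta _
  let P : (Fin 2 → ℝ) →ₗ[ℝ] (Fin 2 → ℝ) :=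
    { toFun := fun x => Y x • Es
      map_add' := fun x y => by
        rw [← add_smul]
        congr 1
        simp only [hYf, Pi.add_apply]
        ring
      map_smul' := fun t x => by
        rw [RingHom.id_apply, smul_smul]
        congr 1
        simp only [hYf, Pi.smul_apply, smul_eq_mul]
        ring }
  have hPx : ∀ x, P x = Y x • Es := fun x => rfl
  have hQx : ∀ x, x - P x = X x • Eu := by
    intro x
    rw [hPx]
    nth_rewrite 1 [← hsp x]
    abel
  have hcomm : ∀ x, P (realMap !![a, b; c, d] x) = realMap !![a, b; c, d] (P x) := by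
    intro x
    set y := realMap !![a, b; c, d] x with hy
    have h1 : y = (X x * lam) • Eu + (Y x * mu) • Es := by
      rw [hy]
      nth_rewrite 1 [← hsp x]
      rw [realMap_add, hsm, hsm, hMu, hMs, smul_smul, smul_smul]
    have h2 : (X y - X x * lam) • Eu + (Y y - Y x * mu) • Es = 0 := by
      have h3 := (hsp y).trans h1
      rw [sub_smul, sub_smul]
      have h4 : X y • Eu - (X x * lam) • Eu + (Y y • Es - (Y x * mu) • Es) =
        (X y • Eu + Y y • Es) - ((X x * lam) • Eu + (Y x * mu) • Es) := by abel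
      rw [h4, h3, sub_self]
    set f := X y - X x * lam with hf
    set g := Y y - Y x * mu with hg
    have h5 : (f * lam) • Eu + (g * mu) • Es = 0 := by
      have h6 := congrArg (realMap !![a, b; c, d]) h2
      rw [realMap_add, hsm, hsm, hMu, hMs, smul_smul, smul_smul] at h6
      rw [h6]
      exact map_zero (realCLM' _)
    have h7 : (g * (mu - lam)) • Es = 0 := by
      have h8 : (g * (mu - lam)) • Es = ((f * lam) • Eu + (g * mu) • Es) -
          lam • (f • Eu + g • Es) := by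
        rw [smul_add, smul_smul, smul_smul, mul_sub, sub_smul, mul_comm lam f, mul_comm lam g]
        abel
      rw [h8, h5, h2, smul_zero, sub_zero]
    have h9 : g • Es = 0 := by
      rw [mul_comm, mul_smul] at h7
      refine (smul_eq_zero.1 h7).resolve_left ?_
      intro h10
      have h11 : mu = lam := by linarith
      rw [h11] at hmu
      linarith
    rw [hPx, hPx, hsm, hMs, smul_smul]
    rw [hg, sub_smul] at h9
    exact sub_eq_zero.1 h9
  have hit : ∀ (M : Matrix (Fin 2) (Fin 2) ℤ) (v : Fin 2 → ℝ), realMap M v = mu • v →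
      ∀ (k : ℕ) (t : ℝ), (realMap M)^[k] (t • v) = (t * mu ^ k) • v := by
    intro M v hv k
    induction k with
    | zero => intro t; simp
    | succ k ih =>
      intro t
      rw [Function.iterate_succ_apply', ih, hsm, hv, smul_smul, pow_succ, mul_assoc]
  have hx0 : ∀ x : Fin 2 → ℝ, |x 0| ≤ ‖x‖ := fun x => norm_le_pi_norm x 0
  have hx1 : ∀ x : Fin 2 → ℝ, |x 1| ≤ ‖x‖ := fun x => norm_le_pi_norm x 1
  have hlin : ∀ (s t : ℝ) (x : Fin 2 → ℝ), |s * x 0 + t * x 1| ≤ (|s| + |t|) * ‖x‖ := by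
    intro s t x
    calc |s * x 0 + t * x 1| ≤ |s * x 0| + |t * x 1| := abs_add_le _ _
      _ = |s| * |x 0| + |t| * |x 1| := by rw [abs_mul, abs_mul]
      _ ≤ |s| * ‖x‖ + |t| * ‖x‖ := by
        gcongr
        · exact hx0 x
        · exact hx1 x
      _ = (|s| + |t|) * ‖x‖ := by ring
  have hbd : ∀ (t r : ℝ) (v : Fin 2 → ℝ) (k : ℕ), ‖(t * mu ^ k) • v‖ = |t| * ‖v‖ * |mu| ^ k := by
    intro t r v k
    rw [norm_smul, Real.norm_eq_abs, abs_mul, abs_pow]
    ring
  refine ⟨(|p'| + |q'|) * ‖Es‖ + (|p| + |q|) * ‖Eu‖, |mu|, abs_nonneg _, hmu,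
    !![d, -b; -c, a], P, hinv, hcomm, fun k x => ?_, fun k x => ?_⟩
  · rw [hPx, hit _ _ hMs, hbd _ 0]
    have h1 : |Y x| ≤ (|p'| + |q'|) * ‖x‖ := by rw [hYf]; exact hlin _ _ x
    have h2 : 0 ≤ |mu| ^ k := by positivity
    calc |Y x| * ‖Es‖ * |mu| ^ k ≤ ((|p'| + |q'|) * ‖x‖) * ‖Es‖ * |mu| ^ k := by gcongr
      _ = ((|p'| + |q'|) * ‖Es‖) * |mu| ^ k * ‖x‖ := by ring
      _ ≤ ((|p'| + |q'|) * ‖Es‖ + (|p| + |q|) * ‖Eu‖) * |mu| ^ k * ‖x‖ := by
        gcongr
        exact le_add_of_nonneg_right (by positivity)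
  · rw [hQx, hit _ _ hM'u, hbd _ 0]
    have h1 : |X x| ≤ (|p| + |q|) * ‖x‖ := by rw [hXf]; exact hlin _ _ x
    calc |X x| * ‖Eu‖ * |mu| ^ k ≤ ((|p| + |q|) * ‖x‖) * ‖Eu‖ * |mu| ^ k := by gcongr
      _ = ((|p| + |q|) * ‖Eu‖) * |mu| ^ k * ‖x‖ := by ring
      _ ≤ ((|p'| + |q'|) * ‖Es‖ + (|p| + |q|) * ‖Eu‖) * |mu| ^ k * ‖x‖ := by
        gcongr
        exact le_add_of_nonneg_left (by positivity)

end Pool.Agent.SC
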