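import Pool.Agent.Lib.MP_1e8d1a_an.IR.Fib
import Pool.Agent.Lib.MP_1e8d1a_an.IR.Two
import Pool.Agent.Lib.MP_1e8d1a_an.IR.Family

/-! Closing for group extensions of fibred hyperbolic torus maps. -/

open scoped ContDiff Manifold Topology

namespace Pool.Agent.SC

variable {E : Type} [NormedAddCommGroup E] [NormedSpace ℝ E] {H : Type} [TopologicalSpace H]
  {I : ModelWithCorners ℝ E H} {W : Type} [TopologicalSpace W] [ChartedSpace H W]

theorem closable_of_fib [FiniteDimensional ℝ E] [T2Space W] [CompactSpace W]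
    [IsManifold I ∞ W] [I.Boundaryless] {r : ℕ∞} (F : W ≃ₘ^r⟮I, I⟯ W)
    {P : Type} [NormedAddCommGroup P] [NormedSpace ℝ P] (ψ : P × W → W) (R : ℝ)
    (hψ : SymmetryFamily I r F ψ R)
    {B : Type} [TopologicalSpace B] [CompactSpace B] [T2Space B] (T : B ≃ₜ B) {n : ℕ} (hn : 0 < n)
    (M : Matrix (Fin n) (Fin n) ℤ) (C θ L : ℝ) (hM : HypMatrix M C θ)
    (φ : B × UnitAddTorus (Fin n) → Fin n → ℝ) (hφ : Continuous φ) (hL0 : 0 ≤ L)
    (hL : 2 * C * L < 1 - θ) (hLip : ∀ b y y', ‖φ (b, y) - φ (b, y')‖ ≤ L * ‖y - y'‖)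
    (F₀ : (B × UnitAddTorus (Fin n)) ≃ₜ (B × UnitAddTorus (Fin n)))
    (hF₀ : ∀ b y, F₀ (b, y) = (T b, torMap M y + torPr (φ (b, y))))
    (π : W → B × UnitAddTorus (Fin n)) (hπc : Continuous π)
    (hπo : IsOpenMap π) (hinv : ∀ v x, π (ψ (v, x)) = π x)
    (hfib : ∀ x x', π x = π x' → ∃ v, ψ (v, x) = x')
    (hF : ∀ x, π (F x) = F₀ (π x)) (p : W)
    (hp : Recurrent F.toEquiv p ∨ NonwanderingPt F p ∨ NonwanderingPt T (π p).1) :
    Closable I F p := by
  obtain ⟨M', P', hd⟩ := hM.data hn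
  obtain ⟨K, hK1, hK2⟩ := fib_conj hd T F₀ φ hφ L hL0 hL hLip hF₀
  refine closable_of_ext F ψ R hψ T T.continuous (torMap M) (isolatedCycles_torMap hn hM)
    (fun x => K (π x)) (K.continuous.comp hπc) (K.isOpenMap.comp hπo)
    (fun v x => by rw [hinv]) (fun x x' h => hfib x x' (K.injective h)) (fun x => ?_) p ?_
  · rw [hF, hK2]
  · rcases hp with hp | hp | hp
    · exact Or.inl hp
    · exact Or.inr (Or.inl hp)
    · refine Or.inr (Or.inr ?_)
      show NonwanderingPt T (K (π p)).1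
      rw [hK1]
      exact hp

/-- no symmetries at all -/
theorem symmetryFamily_trivial {r : ℕ∞} (F : W → W) :
    SymmetryFamily I r F (P := Fin 0 → ℝ) (fun x => x.2) 0 where
  smooth := contMDiff_snd
  zero := fun x => rfl
  add := fun s t v x => rfl
  comm := fun v x => rfl
  bound := fun v => ⟨0, by simp, fun x => rfl⟩

/-- the case of a conjugacy -/
theorem closable_of_fib_conj [FiniteDimensional ℝ E] [T2Space W] [CompactSpace W]
    [IsManifold I ∞ W] [I.Boundaryless] {r : ℕ∞} (F : W ≃ₘ^r⟮I, I⟯ W)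
    {B : Type} [TopologicalSpace B] (T : B ≃ₜ B) {n : ℕ} (hn : 0 < n)
    (M : Matrix (Fin n) (Fin n) ℤ) (C θ L : ℝ) (hM : HypMatrix M C θ)
    (φ : B × UnitAddTorus (Fin n) → Fin n → ℝ) (hφ : Continuous φ) (hL0 : 0 ≤ L)
    (hL : 2 * C * L < 1 - θ) (hLip : ∀ b y y', ‖φ (b, y) - φ (b, y')‖ ≤ L * ‖y - y'‖)
    (h : W ≃ₜ B × UnitAddTorus (Fin n))
    (hF : ∀ x, h (F x) = (T (h x).1, torMap M (h x).2 + torPr (φ (h x)))) (p : W)
    (hp : Recurrent F.toEquiv p ∨ NonwanderingPt F p ∨ NonwanderingPt T (h p).1) :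
    Closable I F p := by
  have hT2 : T2Space (B × UnitAddTorus (Fin n)) := h.symm.isEmbedding.t2Space
  have hB : T2Space B := (isEmbedding_prodMkLeft (h p).2).t2Space
  have hcomp : CompactSpace (B × UnitAddTorus (Fin n)) := h.compactSpace
  have hBc : CompactSpace B := by
    refine isCompact_univ_iff.1 ?_
    have h1 := (isCompact_univ (X := B × UnitAddTorus (Fin n))).image continuous_fst
    rwa [Set.image_univ, Set.range_eq_univ.2 (fun b => ⟨(b, (h p).2), rfl⟩)] at h1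
  let F₀ : (B × UnitAddTorus (Fin n)) ≃ₜ (B × UnitAddTorus (Fin n)) :=
    (h.symm.trans F.toHomeomorph).trans h
  have hF₀ : ∀ b y, F₀ (b, y) = (T b, torMap M y + torPr (φ (b, y))) := by
    intro b y
    show h (F (h.symm (b, y))) = _
    rw [hF, h.apply_symm_apply]
  refine closable_of_fib F (fun x : (Fin 0 → ℝ) × W => x.2) 0 (symmetryFamily_trivial F) T hn M C θ L
    hM φ hφ hL0 hL hLip F₀ hF₀ h h.continuous h.isOpenMap (fun v x => rfl)
    (fun x x' hxx => ⟨0, h.injective hxx⟩) (fun x => ?_) p hp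
  show h (F x) = h (F (h.symm (h x)))
  rw [h.symm_apply_apply]

end Pool.Agent.SC
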